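import Pool.Agent.Lib_helper50.A1.Bd
import Pool.Agent.Lib_helper96.A1.Pw

/-!
# Project A1: uniform bounds for the `w`-integrals, in the letters of `Lib_helper96.A1`
-/

open scoped BigOperators ComplexOrder Kronecker MatrixOrder Topology
open MeasureTheory Set Matrix Filter

set_option linter.unusedSectionVars false

namespace Pool.Agent.A1

variable {ι κ ν : Type} [Fintype ι] [DecidableEq ι] [Fintype κ] [DecidableEq κ]
  [Fintype ν] [DecidableEq ν]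

theorem Zt_eq_Zm (R₁ D₁ : Matrix ι ι ℂ) (R₂ D₂ : Matrix κ κ ℂ) (c e t w : ℝ) :
    Zt R₁ D₁ R₂ D₂ c e t w = Zm (Nt R₁ D₁ R₂ D₂ c e t) (Jc R₁ D₁ R₂ D₂ c) w := by
  unfold Zt Zm
  rw [mul_comm]

/-! ### two-sided bounds of positive definite matrices -/

theorem exists_lower {P : Matrix ν ν ℂ} (hP : P.PosDef) :
    ∃ δ : ℝ, 0 < δ ∧ (P - (δ : ℂ) • (1 : Matrix ν ν ℂ)).PosSemidef := by
  obtain ⟨U, η, hU1, hU2, hU3⟩ := exists_diag hP.1
  have hη : ∀ i, 0 < η i := by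
    intro i
    have hU : IsUnit U := IsUnit.of_mul_eq_one _ hU1
    have h1 : (Uᴴ * P * U).PosDef := by
      have := hP.conjTranspose_mul_mul_same (B := U)
        (Matrix.mulVec_injective_of_isUnit hU)
      exact this
    rw [hU3, Matrix.posDef_diagonal_iff] at h1
    have h2 := h1 i
    exact_mod_cast h2
  refine ⟨(∑ i, (η i)⁻¹ + 1)⁻¹, ?_, ?_⟩
  · have : 0 ≤ ∑ i, (η i)⁻¹ := Finset.sum_nonneg fun i _ => (inv_pos.2 (hη i)).le
    positivity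
  · set δ : ℝ := (∑ i, (η i)⁻¹ + 1)⁻¹ with hδ
    have hle : ∀ i, δ ≤ η i := by
      intro i
      have h1 : (η i)⁻¹ ≤ ∑ i, (η i)⁻¹ + 1 := by
        have := Finset.single_le_sum (f := fun i => (η i)⁻¹)
          (fun i _ => (inv_pos.2 (hη i)).le) (Finset.mem_univ i)
        linarith
      have h2 := inv_anti₀ (inv_pos.2 (hη i)) h1
      rwa [inv_inv] at h2
    have e : P - (δ : ℂ) • (1 : Matrix ν ν ℂ) =
        U * Matrix.diagonal (fun i => ((η i - δ : ℝ) : ℂ)) * Uᴴ := by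
      have e1 : Matrix.diagonal (fun i => ((η i - δ : ℝ) : ℂ)) =
          Uᴴ * P * U - (δ : ℂ) • (1 : Matrix ν ν ℂ) := by
        rw [hU3]
        ext a b
        by_cases hab : a = b
        · subst hab; simp
        · simp [hab]
      rw [e1, Matrix.mul_sub, Matrix.sub_mul, Matrix.mul_smul, mul_one, Matrix.smul_mul, hU1]
      congr 1
      calc P = (U * Uᴴ) * P * (U * Uᴴ) := by rw [hU1]; simp
        _ = _ := by noncomm_ring
    rw [e]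
    apply Matrix.PosSemidef.mul_mul_conjTranspose_same
    rw [Matrix.posSemidef_diagonal_iff]
    intro i
    have h2 : (0 : ℝ) ≤ η i - δ := by linarith [hle i]
    exact_mod_cast h2

theorem exists_upper {P : Matrix ν ν ℂ} (hP : P.PosSemidef) :
    ∃ b : ℝ, 0 ≤ b ∧ ((b : ℂ) • (1 : Matrix ν ν ℂ) - P).PosSemidef := by
  obtain ⟨U, η, hU1, hU2, hU3⟩ := exists_diag hP.1
  refine ⟨∑ i, |η i|, Finset.sum_nonneg fun i _ => abs_nonneg _, ?_⟩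
  set b : ℝ := ∑ i, |η i| with hb
  have hle : ∀ i, η i ≤ b := by
    intro i
    exact (le_abs_self _).trans (Finset.single_le_sum (f := fun i => |η i|)
      (fun i _ => abs_nonneg _) (Finset.mem_univ i))
  have e : (b : ℂ) • (1 : Matrix ν ν ℂ) - P =
      U * Matrix.diagonal (fun i => ((b - η i : ℝ) : ℂ)) * Uᴴ := by
    have e1 : Matrix.diagonal (fun i => ((b - η i : ℝ) : ℂ)) =
        (b : ℂ) • (1 : Matrix ν ν ℂ) - Uᴴ * P * U := by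
      rw [hU3]
      ext a b
      by_cases hab : a = b
      · subst hab; simp
      · simp [hab]
    rw [e1, Matrix.mul_sub, Matrix.sub_mul, Matrix.mul_smul, mul_one, Matrix.smul_mul, hU1]
    congr 1
    calc P = (U * Uᴴ) * P * (U * Uᴴ) := by rw [hU1]; simp
      _ = _ := by noncomm_ring
  rw [e]
  apply Matrix.PosSemidef.mul_mul_conjTranspose_same
  rw [Matrix.posSemidef_diagonal_iff]
  intro i
  have h2 : (0 : ℝ) ≤ b - η i := by linarith [hle i]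
  exact_mod_cast h2

theorem psd_mono_sub {P : Matrix ν ν ℂ} {δ δ' : ℝ} (h : δ' ≤ δ)
    (hP : (P - (δ : ℂ) • (1 : Matrix ν ν ℂ)).PosSemidef) :
    (P - (δ' : ℂ) • (1 : Matrix ν ν ℂ)).PosSemidef := by
  have e : P - (δ' : ℂ) • (1 : Matrix ν ν ℂ) =
      (P - (δ : ℂ) • (1 : Matrix ν ν ℂ)) + (δ - δ' : ℝ) • (1 : Matrix ν ν ℂ) := by
    ext i j
    simp
    by_cases hij : i = j
    · subst hij; simp
    · simp [hij]
  rw [e]
  exact hP.add (Matrix.PosSemidef.one.smul (by linarith))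

theorem psd_mono_add {P : Matrix ν ν ℂ} {b b' : ℝ} (h : b ≤ b')
    (hP : ((b : ℂ) • (1 : Matrix ν ν ℂ) - P).PosSemidef) :
    ((b' : ℂ) • (1 : Matrix ν ν ℂ) - P).PosSemidef := by
  have e : (b' : ℂ) • (1 : Matrix ν ν ℂ) - P =
      ((b : ℂ) • (1 : Matrix ν ν ℂ) - P) + (b' - b : ℝ) • (1 : Matrix ν ν ℂ) := by
    ext i j
    simp
    by_cases hij : i = j
    · subst hij; simp
    · simp [hij]
  rw [e]
  exact hP.add (Matrix.PosSemidef.one.smul (by linarith))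

variable {R₁ D₁ : Matrix ι ι ℂ} {R₂ D₂ : Matrix κ κ ℂ}

/-- `M_t` is a convex combination of three fixed matrices -/
theorem Mt_comb (c t : ℝ) : Mt R₁ D₁ R₂ D₂ c t =
    ((1 - t) * ((1 + c) / 2) : ℝ) • ((R₁ + D₁) ⊗ₖ R₂) +
      ((1 - t) * ((1 - c) / 2) : ℝ) • ((R₁ - D₁) ⊗ₖ R₂) +
        (t : ℝ) • (R₁ ⊗ₖ R₂ + D₁ ⊗ₖ D₂) := by
  unfold Mt Xc Dc Wc
  ext ⟨i, j⟩ ⟨i', j'⟩
  simp only [Matrix.add_apply, Matrix.smul_apply, Matrix.kroneckerMap_apply, Matrix.sub_apply,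
    smul_eq_mul, Complex.real_smul]
  push_cast
  ring

theorem comb_lower {P₁ P₂ P₃ : Matrix ν ν ℂ} {δ : ℝ}
    (h1 : (P₁ - (δ : ℂ) • (1 : Matrix ν ν ℂ)).PosSemidef)
    (h2 : (P₂ - (δ : ℂ) • (1 : Matrix ν ν ℂ)).PosSemidef)
    (h3 : (P₃ - (δ : ℂ) • (1 : Matrix ν ν ℂ)).PosSemidef) {a b c : ℝ} (ha : 0 ≤ a) (hb : 0 ≤ b)
    (hc : 0 ≤ c) (habc : a + b + c = 1) :
    ((a • P₁ + b • P₂ + c • P₃) - (δ : ℂ) • (1 : Matrix ν ν ℂ)).PosSemidef := by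
  have e : (a • P₁ + b • P₂ + c • P₃) - (δ : ℂ) • (1 : Matrix ν ν ℂ) =
      a • (P₁ - (δ : ℂ) • (1 : Matrix ν ν ℂ)) + b • (P₂ - (δ : ℂ) • (1 : Matrix ν ν ℂ)) +
        c • (P₃ - (δ : ℂ) • (1 : Matrix ν ν ℂ)) := by
    have e1 : (δ : ℂ) • (1 : Matrix ν ν ℂ) = (a + b + c) • ((δ : ℂ) • (1 : Matrix ν ν ℂ)) := by
      rw [habc, one_smul]
    conv_lhs => rw [e1]
    simp only [add_smul, smul_sub]
    abel
  rw [e]
  exact ((h1.smul ha).add (h2.smul hb)).add (h3.smul hc)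

theorem comb_upper {P₁ P₂ P₃ : Matrix ν ν ℂ} {δ : ℝ}
    (h1 : ((δ : ℂ) • (1 : Matrix ν ν ℂ) - P₁).PosSemidef)
    (h2 : ((δ : ℂ) • (1 : Matrix ν ν ℂ) - P₂).PosSemidef)
    (h3 : ((δ : ℂ) • (1 : Matrix ν ν ℂ) - P₃).PosSemidef) {a b c : ℝ} (ha : 0 ≤ a) (hb : 0 ≤ b)
    (hc : 0 ≤ c) (habc : a + b + c = 1) :
    ((δ : ℂ) • (1 : Matrix ν ν ℂ) - (a • P₁ + b • P₂ + c • P₃)).PosSemidef := by
  have e : (δ : ℂ) • (1 : Matrix ν ν ℂ) - (a • P₁ + b • P₂ + c • P₃) =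
      a • ((δ : ℂ) • (1 : Matrix ν ν ℂ) - P₁) + b • ((δ : ℂ) • (1 : Matrix ν ν ℂ) - P₂) +
        c • ((δ : ℂ) • (1 : Matrix ν ν ℂ) - P₃) := by
    have e1 : (δ : ℂ) • (1 : Matrix ν ν ℂ) = (a + b + c) • ((δ : ℂ) • (1 : Matrix ν ν ℂ)) := by
      rw [habc, one_smul]
    conv_lhs => rw [e1]
    simp only [add_smul, smul_sub]
    abel
  rw [e]
  exact ((h1.smul ha).add (h2.smul hb)).add (h3.smul hc)

theorem R_tensor_posDef (h₁ : SPair R₁ D₁) (h₂ : SPair R₂ D₂) :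
    ((R₁ + D₁) ⊗ₖ R₂).PosDef ∧ ((R₁ - D₁) ⊗ₖ R₂).PosDef :=
  ⟨h₁.add.kronecker h₂.posDef, h₁.sub.kronecker h₂.posDef⟩

/-- uniform two-sided bounds of `M_t` -/
theorem Mt_bounds (h₁ : SPair R₁ D₁) (h₂ : SPair R₂ D₂) :
    ∃ δ b : ℝ, 0 < δ ∧ 0 ≤ b ∧ ∀ c ∈ Icc (-1 : ℝ) 1, ∀ t ∈ Icc (0 : ℝ) 1,
      (Mt R₁ D₁ R₂ D₂ c t - (δ : ℂ) • 1).PosSemidef ∧
      ((b : ℂ) • 1 - Mt R₁ D₁ R₂ D₂ c t).PosSemidef := by
  obtain ⟨hp, hm⟩ := R_tensor_posDef h₁ h₂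
  have hM := M_posDef h₁ h₂
  obtain ⟨d1, d1p, h1⟩ := exists_lower hp
  obtain ⟨d2, d2p, h2⟩ := exists_lower hm
  obtain ⟨d3, d3p, h3⟩ := exists_lower hM
  obtain ⟨b1, b1p, g1⟩ := exists_upper hp.posSemidef
  obtain ⟨b2, b2p, g2⟩ := exists_upper hm.posSemidef
  obtain ⟨b3, b3p, g3⟩ := exists_upper hM.posSemidef
  refine ⟨min d1 (min d2 d3), max b1 (max b2 b3), by positivity, le_max_of_le_left b1p, ?_⟩
  intro c hc t ht
  have ha : 0 ≤ (1 - t) * ((1 + c) / 2) :=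
    mul_nonneg (by linarith [ht.2]) (by linarith [hc.1])
  have hb : 0 ≤ (1 - t) * ((1 - c) / 2) :=
    mul_nonneg (by linarith [ht.2]) (by linarith [hc.2])
  have hs : (1 - t) * ((1 + c) / 2) + (1 - t) * ((1 - c) / 2) + t = 1 := by ring
  rw [Mt_comb]
  constructor
  · exact comb_lower (psd_mono_sub (min_le_left _ _) h1)
      (psd_mono_sub ((min_le_right _ _).trans (min_le_left _ _)) h2)
      (psd_mono_sub ((min_le_right _ _).trans (min_le_right _ _)) h3) ha hb ht.1 hs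
  · exact comb_upper (psd_mono_add (le_max_left _ _) g1)
      (psd_mono_add ((le_max_left _ _).trans (le_max_right _ _)) g2)
      (psd_mono_add ((le_max_right _ _).trans (le_max_right _ _)) g3) ha hb ht.1 hs

end Pool.Agent.A1
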