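import Pool.Agent.Lib_helper50.A1.Ub

/-!
# Project A1: `UB` for `uu`, `ui`, `vv`
-/

open scoped BigOperators ComplexOrder Kronecker MatrixOrder Topology
open MeasureTheory Set Matrix Filter

set_option linter.unusedSectionVars false

namespace Pool.Agent.A1

variable {ι κ ν : Type} [Fintype ι] [DecidableEq ι] [Fintype κ] [DecidableEq κ]
  [Fintype ν] [DecidableEq ν]

variable {R₁ D₁ : Matrix ι ι ℂ} {R₂ D₂ : Matrix κ κ ℂ}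

theorem Nt_lower {c e t δ : ℝ} (he : 0 ≤ e)
    (h : (Mt R₁ D₁ R₂ D₂ c t - (δ : ℂ) • 1).PosSemidef) :
    (Nt R₁ D₁ R₂ D₂ c e t - ((1 + e * δ : ℝ) : ℂ) • 1).PosSemidef := by
  have e1 : Nt R₁ D₁ R₂ D₂ c e t - ((1 + e * δ : ℝ) : ℂ) • (1 : Matrix (ι × κ) (ι × κ) ℂ) =
      e • (Mt R₁ D₁ R₂ D₂ c t - (δ : ℂ) • 1) := by
    unfold Nt
    rw [smul_sub, ← coe_smul_mat e (Mt R₁ D₁ R₂ D₂ c t)]
    have : e • ((δ : ℂ) • (1 : Matrix (ι × κ) (ι × κ) ℂ)) = ((e * δ : ℝ) : ℂ) • 1 := by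
      rw [← coe_smul_mat, smul_smul]; push_cast; rfl
    rw [this]
    push_cast
    rw [add_smul, one_smul]
    abel
  rw [e1]
  exact h.smul he

theorem Nt_upper {c e t b : ℝ} (he : 0 ≤ e)
    (h : ((b : ℂ) • 1 - Mt R₁ D₁ R₂ D₂ c t).PosSemidef) :
    (((1 + e * b : ℝ) : ℂ) • 1 - Nt R₁ D₁ R₂ D₂ c e t).PosSemidef := by
  have e1 : ((1 + e * b : ℝ) : ℂ) • (1 : Matrix (ι × κ) (ι × κ) ℂ) - Nt R₁ D₁ R₂ D₂ c e t =
      e • ((b : ℂ) • 1 - Mt R₁ D₁ R₂ D₂ c t) := by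
    unfold Nt
    rw [smul_sub, ← coe_smul_mat e (Mt R₁ D₁ R₂ D₂ c t)]
    have : e • ((b : ℂ) • (1 : Matrix (ι × κ) (ι × κ) ℂ)) = ((e * b : ℝ) : ℂ) • 1 := by
      rw [← coe_smul_mat, smul_smul]; push_cast; rfl
    rw [this]
    push_cast
    rw [add_smul, one_smul]
    abel
  rw [e1]
  exact h.smul he

theorem trace_mul_le {P N : Matrix ν ν ℂ} {b : ℝ} (hP : P.PosSemidef)
    (h : ((b : ℂ) • (1 : Matrix ν ν ℂ) - N).PosSemidef) :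
    ((P * N).trace).re ≤ b * (P.trace).re := by
  have h1 := trace_mul_nonneg hP h
  rw [Matrix.mul_sub, Matrix.trace_sub, Complex.sub_re, Matrix.mul_smul, mul_one,
    Matrix.trace_smul, smul_eq_mul, Complex.re_ofReal_mul] at h1
  linarith

/-- `Y_c = (D₁ X_c⁻¹) ⊗ 1` -/
noncomputable def Yc (R₁ D₁ : Matrix ι ι ℂ) (κ : Type) [DecidableEq κ] (c : ℝ) :
    Matrix (ι × κ) (ι × κ) ℂ := (D₁ * (Xc R₁ D₁ c)⁻¹) ⊗ₖ (1 : Matrix κ κ ℂ)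

theorem Yc_mul (h₁ : SPair R₁ D₁) {c : ℝ} (hc : c ∈ Icc (-1 : ℝ) 1) :
    Yc R₁ D₁ κ c * Jc R₁ D₁ R₂ D₂ c = Dc D₁ R₂ D₂ c := by
  unfold Yc Jc Dc
  rw [← Matrix.mul_kronecker_mul, one_mul]
  congr 1
  have hu := (Matrix.isUnit_iff_isUnit_det _).1 (Xc_posDef h₁ hc).isUnit
  rw [mul_assoc, Matrix.nonsing_inv_mul _ hu, mul_one]

theorem exists_Y_bound (h₁ : SPair R₁ D₁) (κ : Type) [Fintype κ] [DecidableEq κ] :
    ∃ y : ℝ, 0 ≤ y ∧ ∀ c ∈ Icc (-1 : ℝ) 1,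
      (((Yc R₁ D₁ κ c)ᴴ * Yc R₁ D₁ κ c).trace).re ≤ y := by
  have hX : Continuous fun c : ℝ => Xc R₁ D₁ c := by
    unfold Xc
    exact continuous_const.add (Complex.continuous_ofReal.smul continuous_const)
  have hXi : ContinuousOn (fun c : ℝ => (Xc R₁ D₁ c)⁻¹) (Icc (-1 : ℝ) 1) := by
    intro c hc
    have hdet : (Xc R₁ D₁ c).det ≠ 0 :=
      ((Matrix.isUnit_iff_isUnit_det _).1 (Xc_posDef h₁ hc).isUnit).ne_zero
    have e : (fun c : ℝ => (Xc R₁ D₁ c)⁻¹) =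
        fun c => ((Xc R₁ D₁ c).det)⁻¹ • (Xc R₁ D₁ c).adjugate := by
      funext c
      rw [Matrix.inv_def, Ring.inverse_eq_inv']
    rw [e]
    apply ContinuousAt.continuousWithinAt
    have g1 : ContinuousAt (fun c : ℝ => ((Xc R₁ D₁ c).det)⁻¹) c :=
      (hX.matrix_det.continuousAt).inv₀ hdet
    have g2 : ContinuousAt (fun c : ℝ => (Xc R₁ D₁ c).adjugate) c :=
      hX.matrix_adjugate.continuousAt
    exact ContinuousAt.smul g1 g2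
  have hY : ContinuousOn (fun c : ℝ => Yc R₁ D₁ κ c) (Icc (-1 : ℝ) 1) := by
    unfold Yc
    have h1 : ContinuousOn (fun c : ℝ => D₁ * (Xc R₁ D₁ c)⁻¹) (Icc (-1 : ℝ) 1) :=
      continuousOn_const.mul hXi
    have h2 : Continuous fun A : Matrix ι ι ℂ => A ⊗ₖ (1 : Matrix κ κ ℂ) := by
      apply continuous_matrix
      rintro ⟨i, j⟩ ⟨i', j'⟩
      simp only [Matrix.kroneckerMap_apply]
      fun_prop
    exact h2.comp_continuousOn h1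
  have hT : ContinuousOn (fun c : ℝ => (((Yc R₁ D₁ κ c)ᴴ * Yc R₁ D₁ κ c).trace).re)
      (Icc (-1 : ℝ) 1) := by
    have h3 : Continuous fun A : Matrix (ι × κ) (ι × κ) ℂ => ((Aᴴ * A).trace).re :=
      Complex.continuous_re.comp
        ((continuous_id.matrix_conjTranspose.mul continuous_id).matrix_trace)
    exact h3.comp_continuousOn hY
  obtain ⟨y, hy⟩ := isCompact_Icc.exists_bound_of_continuousOn hT
  refine ⟨max y 0, le_max_right _ _, fun c hc => ?_⟩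
  have := hy c hc
  rw [Real.norm_eq_abs] at this
  exact (le_abs_self _).trans (this.trans (le_max_left _ _))

/-- uniform bound for `uu` -/
theorem uu_bound (h₁ : SPair R₁ D₁) (h₂ : SPair R₂ D₂) :
    ∃ C : ℝ, ∀ c ∈ Icc (-1 : ℝ) 1, ∀ e, 0 ≤ e → ∀ t ∈ Icc (0 : ℝ) 1,
      IntegrableOn (uu R₁ D₁ R₂ D₂ c e t) (Ioi 0) ∧
      ∫ w in Ioi (0 : ℝ), |uu R₁ D₁ R₂ D₂ c e t w| ≤ C := by
  obtain ⟨δ, b, hδ, hb, hM⟩ := Mt_bounds h₁ h₂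
  obtain ⟨y, hy0, hy⟩ := exists_Y_bound h₁ κ
  refine ⟨Real.pi / 2 * Real.sqrt (Fintype.card (ι × κ) * ((1 + b / δ) * y)), ?_⟩
  intro c hc e he t ht
  obtain ⟨m1, m2⟩ := hM c hc t ht
  have n1 := Nt_lower he m1
  have n2 := Nt_upper he m2
  have hs : 0 < 1 + e * δ := by positivity
  obtain ⟨V, W, l, hF⟩ := exists_frame (Nt_posDef h₁ h₂ hc he ht) (Jc_herm h₁ h₂ c)
  have hYJ := Yc_mul (R₂ := R₂) (D₂ := D₂) h₁ hc
  have hherm : (Yc R₁ D₁ κ c * Jc R₁ D₁ R₂ D₂ c).IsHermitian := by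
    rw [hYJ]; exact Dc_herm h₁ h₂ c
  have e1 : (uu R₁ D₁ R₂ D₂ c e t) = fun w => ((Yc R₁ D₁ κ c * Jc R₁ D₁ R₂ D₂ c *
      (Zm (Nt R₁ D₁ R₂ D₂ c e t) (Jc R₁ D₁ R₂ D₂ c) w)⁻¹).trace).re := by
    funext w
    rw [hYJ]
    unfold uu tz
    rw [Zt_eq_Zm]
  rw [e1]
  refine ⟨hF.integrable_re hherm, (hF.integral_abs_re_le hherm).trans ?_⟩
  apply mul_le_mul_of_nonneg_left _ (by positivity)
  apply Real.sqrt_le_sqrt
  have hP : ((Yc R₁ D₁ κ c)ᴴ * Yc R₁ D₁ κ c).PosSemidef :=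
    Matrix.posSemidef_conjTranspose_mul_self _
  have t1 := trace_inv_le hs n1
  have t2 := trace_mul_le hP n2
  have t3 := hy c hc
  have t4 : 0 ≤ (((Yc R₁ D₁ κ c)ᴴ * Yc R₁ D₁ κ c).trace).re :=
    (Complex.le_def.1 hP.trace_nonneg).1
  have t5 : 0 ≤ ((((Yc R₁ D₁ κ c)ᴴ * Yc R₁ D₁ κ c) * Nt R₁ D₁ R₂ D₂ c e t).trace).re :=
    trace_mul_nonneg hP (Nt_posDef h₁ h₂ hc he ht).posSemidef
  calc (((Nt R₁ D₁ R₂ D₂ c e t)⁻¹).trace).re *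
        ((((Yc R₁ D₁ κ c)ᴴ * Yc R₁ D₁ κ c) * Nt R₁ D₁ R₂ D₂ c e t).trace).re
      ≤ ((1 + e * δ)⁻¹ * Fintype.card (ι × κ)) * ((1 + e * b) * y) := by
        apply mul_le_mul t1 (t2.trans _) t5 (by positivity)
        exact mul_le_mul_of_nonneg_left t3 (by positivity)
    _ = Fintype.card (ι × κ) * (((1 + e * b) / (1 + e * δ)) * y) := by
        field_simp
    _ ≤ _ := by
        apply mul_le_mul_of_nonneg_left _ (by positivity)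
        apply mul_le_mul_of_nonneg_right _ hy0
        rw [div_le_iff₀ hs]
        have : (1 + b / δ) * (1 + e * δ) = 1 + e * δ + b / δ + e * b := by
          field_simp
          ring
        rw [this]
        have h1 : 0 ≤ e * δ := by positivity
        have h2 : 0 ≤ b / δ := by positivity
        linarith

/-- bound for `-(1/w) Im Tr B Z⁻¹` -/
theorem im_bound (h₁ : SPair R₁ D₁) (h₂ : SPair R₂ D₂) {δ : ℝ} (hδ : 0 < δ) {c e t : ℝ}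
    (hc : c ∈ Icc (-1 : ℝ) 1) (he : 0 ≤ e) (ht : t ∈ Icc (0 : ℝ) 1)
    (hM : (Mt R₁ D₁ R₂ D₂ c t - (δ : ℂ) • 1).PosSemidef)
    {B : Matrix (ι × κ) (ι × κ) ℂ} (hB : B.IsHermitian) {y : ℝ}
    (hy : ((Bᴴ * B).trace).re ≤ y) (hy0 : 0 ≤ y) :
    IntegrableOn (fun w => -((tz R₁ D₁ R₂ D₂ B c e t w).im / w)) (Ioi 0) ∧
      ∫ w in Ioi (0 : ℝ), |-((tz R₁ D₁ R₂ D₂ B c e t w).im / w)| ≤
        Real.pi / 2 * Real.sqrt (Fintype.card (ι × κ) * y) / (1 + e * δ) := by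
  have n1 := Nt_lower he hM
  have hs : 0 < 1 + e * δ := by positivity
  obtain ⟨V, W, l, hF⟩ := exists_frame (Nt_posDef h₁ h₂ hc he ht) (Jc_herm h₁ h₂ c)
  have e1 : (fun w => -((tz R₁ D₁ R₂ D₂ B c e t w).im / w)) = fun w => -((B *
      (Zm (Nt R₁ D₁ R₂ D₂ c e t) (Jc R₁ D₁ R₂ D₂ c) w)⁻¹).trace.im / w) := by
    funext w
    unfold tz
    rw [Zt_eq_Zm]
  rw [e1]
  refine ⟨hF.integrable_im hB, ?_⟩
  have e2 : ∀ w, |-((tz R₁ D₁ R₂ D₂ B c e t w).im / w)| = |-((B *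
      (Zm (Nt R₁ D₁ R₂ D₂ c e t) (Jc R₁ D₁ R₂ D₂ c) w)⁻¹).trace.im / w)| := by
    intro w
    unfold tz
    rw [Zt_eq_Zm]
  simp only [e2]
  refine (hF.integral_abs_im_le hB).trans ?_
  rw [mul_div_assoc]
  apply mul_le_mul_of_nonneg_left _ (by positivity)
  have hP : (Bᴴ * B).PosSemidef := Matrix.posSemidef_conjTranspose_mul_self _
  have t1 := trace_inv_le hs n1
  have t2 := trace_mul_inv_le hs n1 hP
  have t0 : 0 ≤ (((Nt R₁ D₁ R₂ D₂ c e t)⁻¹).trace).re :=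
    (Complex.le_def.1 (Nt_posDef h₁ h₂ hc he ht).inv.posSemidef.trace_nonneg).1
  rw [le_div_iff₀ hs]
  have h3 : Real.sqrt (((((Nt R₁ D₁ R₂ D₂ c e t)⁻¹).trace).re) *
      (((Bᴴ * B * (Nt R₁ D₁ R₂ D₂ c e t)⁻¹).trace).re)) * (1 + e * δ) =
      Real.sqrt (((((Nt R₁ D₁ R₂ D₂ c e t)⁻¹).trace).re) *
      (((Bᴴ * B * (Nt R₁ D₁ R₂ D₂ c e t)⁻¹).trace).re) * (1 + e * δ) ^ 2) := by
    rw [Real.sqrt_mul' (((((Nt R₁ D₁ R₂ D₂ c e t)⁻¹).trace).re) *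
      (((Bᴴ * B * (Nt R₁ D₁ R₂ D₂ c e t)⁻¹).trace).re)) (sq_nonneg (1 + e * δ)),
      Real.sqrt_sq hs.le]
  rw [h3]
  apply Real.sqrt_le_sqrt
  have t5 : 0 ≤ (((Bᴴ * B * (Nt R₁ D₁ R₂ D₂ c e t)⁻¹).trace).re) :=
    trace_mul_nonneg hP (Nt_posDef h₁ h₂ hc he ht).inv.posSemidef
  calc (((Nt R₁ D₁ R₂ D₂ c e t)⁻¹).trace).re *
        (((Bᴴ * B * (Nt R₁ D₁ R₂ D₂ c e t)⁻¹).trace).re) * (1 + e * δ) ^ 2
      ≤ ((1 + e * δ)⁻¹ * Fintype.card (ι × κ)) * ((1 + e * δ)⁻¹ * y) * (1 + e * δ) ^ 2 := by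
        apply mul_le_mul_of_nonneg_right _ (by positivity)
        apply mul_le_mul t1 (t2.trans _) t5 (by positivity)
        exact mul_le_mul_of_nonneg_left hy (by positivity)
    _ = Fintype.card (ι × κ) * y := by field_simp

end Pool.Agent.A1
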