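import Mathlib

/-!
# Project A1: swapping `∫_0^∞ dw` with interval integrals, under a uniform bound
-/

open scoped Topology
open MeasureTheory Set Filter

namespace Pool.Agent.A1

/-- `f x` is integrable in `w`, with `∫ |f x w| dw ≤ C`, for `x ∈ [a,b]` -/
structure UB (f : ℝ → ℝ → ℝ) (a b C : ℝ) : Prop where
  meas : Measurable (Function.uncurry f)
  int : ∀ x ∈ Icc a b, IntegrableOn (f x) (Ioi 0)
  bd : ∀ x ∈ Icc a b, ∫ w in Ioi (0 : ℝ), |f x w| ≤ C

namespace UB

variable {f : ℝ → ℝ → ℝ} {a b C : ℝ}

theorem integrable_prod (h : UB f a b C) :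
    Integrable (Function.uncurry f) ((volume.restrict (Ioc a b)).prod
      (volume.restrict (Ioi (0 : ℝ)))) := by
  have hsm : StronglyMeasurable (Function.uncurry f) := h.meas.stronglyMeasurable
  rw [integrable_prod_iff hsm.aestronglyMeasurable]
  constructor
  · rw [ae_restrict_iff' measurableSet_Ioc]
    exact Eventually.of_forall fun x hx => h.int x (Ioc_subset_Icc_self hx)
  · have h1 : StronglyMeasurable fun x => ∫ w in Ioi (0 : ℝ), ‖Function.uncurry f (x, w)‖ := by
      have h2 : StronglyMeasurable (Function.uncurry fun x w => ‖f x w‖) := hsm.norm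
      exact h2.integral_prod_right
    apply Measure.integrableOn_of_bounded (M := C) measure_Ioc_lt_top.ne h1.aestronglyMeasurable
    rw [ae_restrict_iff' measurableSet_Ioc]
    refine Eventually.of_forall fun x hx => ?_
    rw [Real.norm_eq_abs, abs_of_nonneg (integral_nonneg fun _ => norm_nonneg _)]
    exact h.bd x (Ioc_subset_Icc_self hx)

theorem integrableOn_integral (h : UB f a b C) (hab : a ≤ b) :
    IntegrableOn (fun w => ∫ x in a..b, f x w) (Ioi 0) := by
  have h1 := h.integrable_prod.integral_prod_right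
  simp only [Function.uncurry] at h1
  simp only [intervalIntegral.integral_of_le hab]
  exact h1

theorem nonneg_C (h : UB f a b C) (hab : a ≤ b) : 0 ≤ C :=
  (integral_nonneg fun _ => abs_nonneg _).trans (h.bd a ⟨le_rfl, hab⟩)

theorem integral_abs_le (h : UB f a b C) (hab : a ≤ b) :
    ∫ w in Ioi (0 : ℝ), |∫ x in a..b, f x w| ≤ C * (b - a) := by
  have h1 := h.integrable_prod.norm
  have h2 : ∫ w in Ioi (0 : ℝ), |∫ x in a..b, f x w| ≤
      ∫ w in Ioi (0 : ℝ), ∫ x in Ioc a b, |f x w| := by
    apply integral_mono (h.integrableOn_integral hab).abs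
    · have h3 := h1.integral_prod_right
      simp only [Function.uncurry, Real.norm_eq_abs] at h3
      exact h3
    · intro w
      simp only
      rw [intervalIntegral.integral_of_le hab]
      exact abs_integral_le_integral_abs
  refine h2.trans ?_
  have h3 : ∫ w in Ioi (0 : ℝ), ∫ x in Ioc a b, |f x w| =
      ∫ x in Ioc a b, ∫ w in Ioi (0 : ℝ), |f x w| := by
    have h4 : Integrable (Function.uncurry fun x w => |f x w|)
        ((volume.restrict (Ioc a b)).prod (volume.restrict (Ioi (0 : ℝ)))) := h1
    exact (integral_integral_swap h4).symm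
  rw [h3]
  have h5 : ∫ x in Ioc a b, ∫ w in Ioi (0 : ℝ), |f x w| ≤ ∫ x in Ioc a b, C := by
    apply setIntegral_mono_on
    · have h6 := h1.integral_prod_left
      simp only [Function.uncurry, Real.norm_eq_abs] at h6
      exact h6
    · exact integrableOn_const measure_Ioc_lt_top.ne
    · exact measurableSet_Ioc
    · intro x hx
      exact h.bd x (Ioc_subset_Icc_self hx)
  refine h5.trans ?_
  rw [setIntegral_const, smul_eq_mul, Real.volume_real_Ioc_of_le hab, mul_comm]

theorem swap (h : UB f a b C) (hab : a ≤ b) :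
    ∫ w in Ioi (0 : ℝ), ∫ x in a..b, f x w = ∫ x in a..b, ∫ w in Ioi (0 : ℝ), f x w := by
  simp only [intervalIntegral.integral_of_le hab]
  exact (integral_integral_swap h.integrable_prod).symm

theorem intervalIntegrable (h : UB f a b C) (hab : a ≤ b) :
    IntervalIntegrable (fun x => ∫ w in Ioi (0 : ℝ), f x w) volume a b := by
  rw [intervalIntegrable_iff_integrableOn_Ioc_of_le hab]
  exact h.integrable_prod.integral_prod_left

theorem abs_integral_le (h : UB f a b C) {x : ℝ} (hx : x ∈ Icc a b) :
    |∫ w in Ioi (0 : ℝ), f x w| ≤ C :=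
  abs_integral_le_integral_abs.trans (h.bd x hx)

end UB

/-- a family of `UB` functions, integrated over `y ∈ [c,d]`, is `UB` -/
theorem UB.nest {g : ℝ → ℝ → ℝ → ℝ} {a b c d C : ℝ} (hcd : c ≤ d)
    (hm : Measurable fun z : ℝ × ℝ × ℝ => g z.1 z.2.1 z.2.2)
    (h : ∀ x ∈ Icc a b, UB (g x) c d C) :
    UB (fun x w => ∫ y in c..d, g x y w) a b (C * (d - c)) where
  meas := by
    have h1 : Measurable fun z : (ℝ × ℝ) × ℝ => g z.1.1 z.2 z.1.2 :=
      hm.comp ((measurable_fst.comp measurable_fst).prodMk
        (measurable_snd.prodMk (measurable_snd.comp measurable_fst)))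
    have h2 : StronglyMeasurable fun z : ℝ × ℝ => ∫ y in Ioc c d, g z.1 y z.2 :=
      h1.stronglyMeasurable.integral_prod_right
    have e : (Function.uncurry fun x w => ∫ y in c..d, g x y w) =
        fun z : ℝ × ℝ => ∫ y in Ioc c d, g z.1 y z.2 := by
      funext z
      simp only [Function.uncurry, intervalIntegral.integral_of_le hcd]
    rw [e]
    exact h2.measurable
  int := fun x hx => (h x hx).integrableOn_integral hcd
  bd := fun x hx => (h x hx).integral_abs_le hcd

end Pool.Agent.A1
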