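import Pool.Agent.Lib_helper50.A1.Lin

/-!
# Project A1: the integrals over `w ∈ (0, ∞)` of `Re Tr B (N + i w J)⁻¹` and `- Im Tr B (N + i w J)⁻¹ / w`
-/

open scoped BigOperators ComplexOrder Kronecker MatrixOrder Topology
open MeasureTheory Set Matrix Filter

namespace Pool.Agent.A1

variable {ι : Type} [Fintype ι] [DecidableEq ι]

/-- the scalar kernel `(1 + (w l)²)⁻¹` -/
noncomputable def ker (l w : ℝ) : ℝ := (1 + (w * l) ^ 2)⁻¹

theorem ker_nonneg (l w : ℝ) : 0 ≤ ker l w := by unfold ker; positivity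

theorem ker_abs (l w : ℝ) : ker l w = ker |l| w := by
  unfold ker
  rw [mul_pow, mul_pow, sq_abs]

theorem integrableOn_ker {l : ℝ} (hl : l ≠ 0) : IntegrableOn (ker l) (Ioi 0) := by
  have h0 : 0 < |l| := abs_pos.2 hl
  have h1 : IntegrableOn (fun x : ℝ => (1 + x ^ 2)⁻¹) (Ioi (0 * |l|)) :=
    integrable_inv_one_add_sq.integrableOn
  have h2 := (integrableOn_Ioi_comp_mul_right_iff (fun x : ℝ => (1 + x ^ 2)⁻¹) 0 h0).2 h1
  have e : ker l = fun w => (1 + (w * |l|) ^ 2)⁻¹ := by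
    funext w; rw [ker_abs]; rfl
  rw [e]
  exact h2

theorem integral_ker {l : ℝ} (hl : l ≠ 0) : ∫ w in Ioi (0 : ℝ), ker l w = Real.pi / 2 / |l| := by
  have h0 : 0 < |l| := abs_pos.2 hl
  have h2 := integral_comp_mul_right_Ioi (fun x : ℝ => (1 + x ^ 2)⁻¹) 0 h0
  have e : ker l = fun w => (1 + (w * |l|) ^ 2)⁻¹ := by
    funext w; rw [ker_abs]; rfl
  rw [e, h2, zero_mul, integral_Ioi_inv_one_add_sq, Real.arctan_zero, sub_zero, smul_eq_mul]
  field_simp

theorem integrableOn_mul_ker (l : ℝ) : IntegrableOn (fun w => l * ker l w) (Ioi 0) := by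
  by_cases hl : l = 0
  · subst hl; simp
  · exact (integrableOn_ker hl).const_mul l

theorem integral_mul_ker (l : ℝ) : ∫ w in Ioi (0 : ℝ), l * ker l w = Real.pi / 2 * SignType.sign l := by
  by_cases hl : l = 0
  · subst hl; simp
  · rw [integral_const_mul, integral_ker hl]
    rcases lt_or_gt_of_ne hl with h | h
    · rw [abs_of_neg h, sign_neg h]
      simp only [SignType.coe_neg_one]
      field_simp
    · rw [abs_of_pos h, sign_pos h]
      simp only [SignType.coe_one]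
      field_simp

theorem integral_abs_mul_ker_le (l : ℝ) :
    ∫ w in Ioi (0 : ℝ), |l| * ker l w ≤ Real.pi / 2 := by
  by_cases hl : l = 0
  · subst hl; simp; positivity
  · rw [integral_const_mul, integral_ker hl]
    have := abs_pos.2 hl
    apply le_of_eq
    field_simp

/-! ### the Cauchy–Schwarz bound for `∑ |(Vᴴ X)_kk|` -/

omit [DecidableEq ι] in
theorem sum_norm_diag_le (V X : Matrix ι ι ℂ) : ∑ k, ‖(Vᴴ * X) k k‖ ≤
    Real.sqrt (((Vᴴ * V).trace).re * ((Xᴴ * X).trace).re) := by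
  have hfro : ∀ A : Matrix ι ι ℂ, ((Aᴴ * A).trace).re = ∑ k, ∑ j, ‖A j k‖ ^ 2 := by
    intro A
    unfold Matrix.trace
    rw [Complex.re_sum]
    apply Finset.sum_congr rfl
    intro k _
    rw [Matrix.diag_apply, Matrix.mul_apply, Complex.re_sum]
    apply Finset.sum_congr rfl
    intro j _
    rw [Matrix.conjTranspose_apply, Complex.star_def, ← Complex.normSq_eq_conj_mul_self,
      Complex.ofReal_re, Complex.normSq_eq_norm_sq]
  have h1 : ∑ k, ‖(Vᴴ * X) k k‖ ≤ ∑ k, ∑ j, ‖V j k‖ * ‖X j k‖ := by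
    apply Finset.sum_le_sum
    intro k _
    rw [Matrix.mul_apply]
    refine (norm_sum_le _ _).trans ?_
    apply Finset.sum_le_sum
    intro j _
    rw [norm_mul, Matrix.conjTranspose_apply, norm_star]
  refine h1.trans ?_
  apply Real.le_sqrt_of_sq_le
  rw [hfro, hfro]
  rw [← Finset.sum_product', ← Finset.sum_product', ← Finset.sum_product']
  exact Finset.sum_mul_sq_le_sq_mul_sq _ _ _

namespace Frame

variable {N J V W : Matrix ι ι ℂ} {l : ι → ℝ}

theorem invN (h : Frame N J V W l) : N⁻¹ = V * Vᴴ := by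
  apply Matrix.inv_eq_right_inv
  rw [h.eqN]
  calc Wᴴ * W * (V * Vᴴ) = Wᴴ * (W * V) * Vᴴ := by noncomm_ring
    _ = 1 := by rw [h.wv, mul_one, h.vw']

theorem trVV (h : Frame N J V W l) : (Vᴴ * V).trace = (N⁻¹).trace := by
  rw [h.invN, Matrix.trace_mul_comm]

theorem JV (h : Frame N J V W l) : J * V = Wᴴ * Matrix.diagonal (fun i => (l i : ℂ)) := by
  calc J * V = (Wᴴ * Vᴴ) * (J * V) := by rw [h.vw', one_mul]
    _ = Wᴴ * (Vᴴ * J * V) := by noncomm_ring
    _ = _ := by rw [h.hJ]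

/-- for `B = Y J` the diagonal of `Vᴴ B V` is `(Vᴴ Y Wᴴ)_kk l_k` -/
theorem dgn_mul (h : Frame N J V W l) (Y : Matrix ι ι ℂ) (k : ι) :
    dgn V (Y * J) k = (Vᴴ * (Y * Wᴴ)) k k * (l k : ℂ) := by
  unfold dgn
  have e : Vᴴ * (Y * J) * V = Vᴴ * (Y * Wᴴ) * Matrix.diagonal (fun i => (l i : ℂ)) := by
    calc Vᴴ * (Y * J) * V = Vᴴ * Y * (J * V) := by noncomm_ring
      _ = _ := by rw [h.JV]; noncomm_ring
  rw [e, Matrix.mul_diagonal]

/-- absolute integrability of `Re Tr (Y J) Z⁻¹` -/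
theorem integrable_re (h : Frame N J V W l) {Y : Matrix ι ι ℂ} (hB : (Y * J).IsHermitian) :
    IntegrableOn (fun w => ((Y * J * (Zm N J w)⁻¹).trace).re) (Ioi 0) := by
  have e : (fun w => ((Y * J * (Zm N J w)⁻¹).trace).re) =
      fun w => ∑ k, (dgn V (Y * J) k).re * ker (l k) w := by
    funext w; rw [h.re_trace hB]; rfl
  rw [e]
  apply integrable_finsetSum
  intro k _
  by_cases hl : l k = 0
  · rw [h.dgn_mul, hl]; simp
  · exact (integrableOn_ker hl).const_mul _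

theorem integral_abs_re_le (h : Frame N J V W l) {Y : Matrix ι ι ℂ} (hB : (Y * J).IsHermitian) :
    ∫ w in Ioi (0 : ℝ), |((Y * J * (Zm N J w)⁻¹).trace).re| ≤
      Real.pi / 2 * Real.sqrt (((N⁻¹).trace).re * ((Yᴴ * Y * N).trace).re) := by
  have hint : ∀ k, IntegrableOn (fun w => ‖(Vᴴ * (Y * Wᴴ)) k k‖ * (|l k| * ker (l k) w))
      (Ioi 0) := by
    intro k
    apply Integrable.const_mul
    by_cases hl : l k = 0
    · simp [hl]
    · exact (integrableOn_ker hl).const_mul _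
  have h1 : ∫ w in Ioi (0 : ℝ), |((Y * J * (Zm N J w)⁻¹).trace).re| ≤
      ∫ w in Ioi (0 : ℝ), ∑ k, ‖(Vᴴ * (Y * Wᴴ)) k k‖ * (|l k| * ker (l k) w) := by
    apply integral_mono (h.integrable_re hB).abs (integrable_finsetSum _ fun k _ => hint k)
    intro w
    simp only
    rw [h.re_trace hB]
    refine (Finset.abs_sum_le_sum_abs _ _).trans ?_
    apply Finset.sum_le_sum
    intro k _
    rw [abs_mul]
    have e1 : |(1 + (w * l k) ^ 2)⁻¹| = ker (l k) w := abs_of_nonneg (ker_nonneg _ _)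
    rw [e1, ← mul_assoc]
    apply mul_le_mul_of_nonneg_right _ (ker_nonneg _ _)
    rw [h.dgn_mul]
    refine (Complex.abs_re_le_norm _).trans ?_
    rw [norm_mul, Complex.norm_real, Real.norm_eq_abs]
  refine h1.trans ?_
  rw [integral_finsetSum _ fun k _ => hint k]
  have h2 : ∀ k, ∫ w in Ioi (0 : ℝ), ‖(Vᴴ * (Y * Wᴴ)) k k‖ * (|l k| * ker (l k) w) ≤
      ‖(Vᴴ * (Y * Wᴴ)) k k‖ * (Real.pi / 2) := by
    intro k
    rw [integral_const_mul]
    exact mul_le_mul_of_nonneg_left (integral_abs_mul_ker_le _) (norm_nonneg _)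
  refine (Finset.sum_le_sum fun k _ => h2 k).trans ?_
  rw [← Finset.sum_mul, mul_comm]
  apply mul_le_mul_of_nonneg_left _ (by positivity)
  refine (sum_norm_diag_le _ _).trans ?_
  rw [h.trVV]
  apply le_of_eq
  congr 3
  have e : ((Y * Wᴴ)ᴴ * (Y * Wᴴ)).trace = (Yᴴ * Y * N).trace := by
    rw [Matrix.conjTranspose_mul, Matrix.conjTranspose_conjTranspose, h.eqN]
    calc (W * Yᴴ * (Y * Wᴴ)).trace = (W * (Yᴴ * Y * Wᴴ)).trace := by congr 1; noncomm_ring
      _ = ((Yᴴ * Y * Wᴴ) * W).trace := Matrix.trace_mul_comm _ _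
      _ = _ := by congr 1; noncomm_ring
  rw [e]

/-- `- Im Tr B Z⁻¹ / w = ∑ b_k l_k ker(l_k)` -/
theorem im_div (h : Frame N J V W l) {B : Matrix ι ι ℂ} (hB : B.IsHermitian) {w : ℝ}
    (hw : w ≠ 0) : -(((B * (Zm N J w)⁻¹).trace).im / w) =
      ∑ k, (dgn V B k).re * (l k * ker (l k) w) := by
  rw [h.im_trace hB]
  unfold ker
  field_simp

theorem integrable_im (h : Frame N J V W l) {B : Matrix ι ι ℂ} (hB : B.IsHermitian) :
    IntegrableOn (fun w => -(((B * (Zm N J w)⁻¹).trace).im / w)) (Ioi 0) := by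
  have h1 : IntegrableOn (fun w => ∑ k, (dgn V B k).re * (l k * ker (l k) w)) (Ioi 0) := by
    apply integrable_finsetSum
    intro k _
    exact (integrableOn_mul_ker _).const_mul _
  apply h1.congr_fun _ measurableSet_Ioi
  intro w hw
  exact (h.im_div hB (ne_of_gt hw)).symm

theorem integral_abs_im_le (h : Frame N J V W l) {B : Matrix ι ι ℂ} (hB : B.IsHermitian) :
    ∫ w in Ioi (0 : ℝ), |-(((B * (Zm N J w)⁻¹).trace).im / w)| ≤
      Real.pi / 2 * Real.sqrt (((N⁻¹).trace).re * ((Bᴴ * B * N⁻¹).trace).re) := by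
  have hint : ∀ k, IntegrableOn (fun w => ‖(Vᴴ * (B * V)) k k‖ * (|l k| * ker (l k) w))
      (Ioi 0) := by
    intro k
    apply Integrable.const_mul
    by_cases hl : l k = 0
    · simp [hl]
    · exact (integrableOn_ker hl).const_mul _
  have h1 : ∫ w in Ioi (0 : ℝ), |-(((B * (Zm N J w)⁻¹).trace).im / w)| ≤
      ∫ w in Ioi (0 : ℝ), ∑ k, ‖(Vᴴ * (B * V)) k k‖ * (|l k| * ker (l k) w) := by
    apply setIntegral_mono_on (h.integrable_im hB).abs
      (integrable_finsetSum _ fun k _ => hint k) measurableSet_Ioi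
    intro w hw
    rw [h.im_div hB (ne_of_gt hw)]
    refine (Finset.abs_sum_le_sum_abs _ _).trans ?_
    apply Finset.sum_le_sum
    intro k _
    rw [abs_mul, abs_mul, abs_of_nonneg (ker_nonneg _ _)]
    apply mul_le_mul_of_nonneg_right _ (mul_nonneg (abs_nonneg _) (ker_nonneg _ _))
    refine (Complex.abs_re_le_norm _).trans ?_
    unfold dgn
    rw [mul_assoc]
  refine h1.trans ?_
  rw [integral_finsetSum _ fun k _ => hint k]
  have h2 : ∀ k, ∫ w in Ioi (0 : ℝ), ‖(Vᴴ * (B * V)) k k‖ * (|l k| * ker (l k) w) ≤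
      ‖(Vᴴ * (B * V)) k k‖ * (Real.pi / 2) := by
    intro k
    rw [integral_const_mul]
    exact mul_le_mul_of_nonneg_left (integral_abs_mul_ker_le _) (norm_nonneg _)
  refine (Finset.sum_le_sum fun k _ => h2 k).trans ?_
  rw [← Finset.sum_mul, mul_comm]
  apply mul_le_mul_of_nonneg_left _ (by positivity)
  refine (sum_norm_diag_le _ _).trans ?_
  rw [h.trVV]
  apply le_of_eq
  congr 3
  have e : ((B * V)ᴴ * (B * V)).trace = (Bᴴ * B * N⁻¹).trace := by
    rw [Matrix.conjTranspose_mul, h.invN]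
    calc (Vᴴ * Bᴴ * (B * V)).trace = (Vᴴ * (Bᴴ * B * V)).trace := by congr 1; noncomm_ring
      _ = ((Bᴴ * B * V) * Vᴴ).trace := Matrix.trace_mul_comm _ _
      _ = _ := by congr 1; noncomm_ring
  rw [e]

end Frame

end Pool.Agent.A1
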