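import Pool.Agent.Lib_helper50.A1.Fubp
import Pool.Agent.Lib_helper96.A1.Bdy
import Pool.Agent.Lib_helper59.A1.Stmts

/-!
# Project A1: the block FUB (Proposition 1)
-/

set_option autoImplicit false

open scoped BigOperators ComplexOrder Kronecker MatrixOrder
open MeasureTheory Set Matrix

namespace Pool.Agent.A1W

open Pool.Agent.RC Pool.Agent.A1

theorem fub_stmt : FUBStmt := by
  intro ι κ _ _ _ _ R₁ D₁ R₂ D₂ h₁ h₂ α e₀ E he₀ hE
  refine fub_aux h₁ h₂ ?_ α he₀ hE
  intro e he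
  exact bdy h₁ h₂ he.le

end Pool.Agent.A1W
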