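import Pool.Agent.Lib_helper50.A1.Wint
import Pool.Agent.Lib_helper50.A1.Fub

/-!
# Project A1: measurability and uniform bounds
-/

open scoped BigOperators ComplexOrder Kronecker MatrixOrder Topology
open MeasureTheory Set Matrix Filter

namespace Pool.Agent.A1

variable {ι κ : Type} [Fintype ι] [DecidableEq ι] [Fintype κ] [DecidableEq κ]

/-! ### measurability -/

theorem measurable_inv_entry {X : Type*} [TopologicalSpace X] [MeasurableSpace X]
    [OpensMeasurableSpace X] {G : X → Matrix ι ι ℂ} (hG : Continuous G) (i j : ι) :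
    Measurable fun x => (G x)⁻¹ i j := by
  have e : (fun x => (G x)⁻¹ i j) = fun x => ((G x).det)⁻¹ * (G x).adjugate i j := by
    funext x
    rw [Matrix.inv_def, Ring.inverse_eq_inv', Matrix.smul_apply, smul_eq_mul]
  rw [e]
  apply Measurable.mul
  · exact (hG.matrix_det.measurable).inv
  · exact ((continuous_apply_apply i j).comp hG.matrix_adjugate).measurable

theorem measurable_trace_inv {X : Type*} [TopologicalSpace X] [MeasurableSpace X]
    [OpensMeasurableSpace X] {B G : X → Matrix ι ι ℂ} (hB : Continuous B) (hG : Continuous G) :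
    Measurable fun x => (B x * (G x)⁻¹).trace := by
  have e : (fun x => (B x * (G x)⁻¹).trace) = fun x => ∑ i, ∑ j, B x i j * (G x)⁻¹ j i := by
    funext x
    unfold Matrix.trace
    apply Finset.sum_congr rfl
    intro i _
    rw [Matrix.diag_apply, Matrix.mul_apply]
  rw [e]
  apply Finset.measurable_sum
  intro i _
  apply Finset.measurable_sum
  intro j _
  exact (((continuous_apply_apply i j).comp hB).measurable).mul (measurable_inv_entry hG j i)

/-! ### positivity -/

omit [DecidableEq ι] in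
theorem trace_mul_nonneg [DecidableEq ι] {A B : Matrix ι ι ℂ} (hA : A.PosSemidef) (hB : B.PosSemidef) :
    0 ≤ ((A * B).trace).re := by
  obtain ⟨C, hC⟩ := CStarAlgebra.nonneg_iff_eq_star_mul_self.mp hA.nonneg
  have hC' : A = Cᴴ * C := hC
  have e : (A * B).trace = (C * B * Cᴴ).trace := by
    rw [hC']
    calc (Cᴴ * C * B).trace = (Cᴴ * (C * B)).trace := by congr 1; noncomm_ring
      _ = ((C * B) * Cᴴ).trace := Matrix.trace_mul_comm _ _
  rw [e]
  have h1 : (C * B * Cᴴ).PosSemidef := hB.mul_mul_conjTranspose_same C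
  have h2 := h1.trace_nonneg
  exact (Complex.le_def.1 h2).1

theorem psd_inv_le {N : Matrix ι ι ℂ} {s : ℝ} (hs : 0 < s)
    (h : (N - (s : ℂ) • (1 : Matrix ι ι ℂ)).PosSemidef) :
    ((s⁻¹ : ℝ) • (1 : Matrix ι ι ℂ) - N⁻¹).PosSemidef := by
  have hN : N.IsHermitian := by
    have h1 : N = (N - (s : ℂ) • (1 : Matrix ι ι ℂ)) + (s : ℂ) • (1 : Matrix ι ι ℂ) := by abel
    rw [h1]
    apply h.1.add
    unfold Matrix.IsHermitian
    simp [Matrix.conjTranspose_smul]
  obtain ⟨U, η, hU1, hU2, hU3⟩ := exists_diag hN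
  have hη : ∀ i, s ≤ η i := by
    intro i
    have h1 := h.conjTranspose_mul_mul_same U
    have e : Uᴴ * (N - (s : ℂ) • (1 : Matrix ι ι ℂ)) * U =
        Matrix.diagonal (fun i => ((η i - s : ℝ) : ℂ)) := by
      rw [Matrix.mul_sub, Matrix.sub_mul, hU3, Matrix.mul_smul, mul_one, Matrix.smul_mul, hU2]
      ext a b
      by_cases hab : a = b
      · subst hab; simp
      · simp [hab]
    rw [e, Matrix.posSemidef_diagonal_iff] at h1
    have h2 := h1 i
    have h3 := (Complex.le_def.1 h2).1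
    simp at h3
    exact h3
  have hN' : N = U * Matrix.diagonal (fun i => (η i : ℂ)) * Uᴴ := by
    rw [← hU3]
    calc N = (U * Uᴴ) * N * (U * Uᴴ) := by rw [hU1]; simp
      _ = _ := by noncomm_ring
  have hinv : N⁻¹ = U * Matrix.diagonal (fun i => ((η i)⁻¹ : ℂ)) * Uᴴ := by
    apply Matrix.inv_eq_right_inv
    rw [hN']
    calc U * Matrix.diagonal (fun i => (η i : ℂ)) * Uᴴ *
          (U * Matrix.diagonal (fun i => ((η i)⁻¹ : ℂ)) * Uᴴ) =
        U * (Matrix.diagonal (fun i => (η i : ℂ)) * (Uᴴ * U) *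
          Matrix.diagonal (fun i => ((η i)⁻¹ : ℂ))) * Uᴴ := by noncomm_ring
      _ = 1 := by
        rw [hU2, mul_one, Matrix.diagonal_mul_diagonal]
        have : (fun i => (η i : ℂ) * ((η i)⁻¹ : ℂ)) = fun _ => (1 : ℂ) := by
          funext i
          apply mul_inv_cancel₀
          have : (0 : ℝ) < η i := lt_of_lt_of_le hs (hη i)
          exact_mod_cast this.ne'
        rw [this, Matrix.diagonal_one, mul_one, hU1]
  have e : (s⁻¹ : ℝ) • (1 : Matrix ι ι ℂ) - N⁻¹ =
      U * Matrix.diagonal (fun i => ((s⁻¹ - (η i)⁻¹ : ℝ) : ℂ)) * Uᴴ := by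
    have e1 : Matrix.diagonal (fun i => ((s⁻¹ - (η i)⁻¹ : ℝ) : ℂ)) =
        (s⁻¹ : ℝ) • (1 : Matrix ι ι ℂ) - Matrix.diagonal (fun i => ((η i)⁻¹ : ℂ)) := by
      ext a b
      by_cases hab : a = b
      · subst hab; simp
      · simp [hab]
    rw [e1, Matrix.mul_sub, Matrix.sub_mul, ← hinv]
    congr 1
    rw [Matrix.mul_smul, mul_one, Matrix.smul_mul, hU1]
  rw [e]
  apply Matrix.PosSemidef.mul_mul_conjTranspose_same
  rw [Matrix.posSemidef_diagonal_iff]
  intro i
  have h1 : (η i)⁻¹ ≤ s⁻¹ := inv_anti₀ hs (hη i)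
  have h2 : (0 : ℝ) ≤ s⁻¹ - (η i)⁻¹ := by linarith
  exact_mod_cast h2

theorem trace_mul_inv_le {N P : Matrix ι ι ℂ} {s : ℝ} (hs : 0 < s)
    (h : (N - (s : ℂ) • (1 : Matrix ι ι ℂ)).PosSemidef) (hP : P.PosSemidef) :
    ((P * N⁻¹).trace).re ≤ s⁻¹ * (P.trace).re := by
  have h1 := trace_mul_nonneg hP (psd_inv_le hs h)
  rw [Matrix.mul_sub, Matrix.trace_sub, Complex.sub_re, Matrix.mul_smul, mul_one,
    Matrix.trace_smul, Complex.smul_re, smul_eq_mul] at h1
  linarith

theorem trace_inv_le {N : Matrix ι ι ℂ} {s : ℝ} (hs : 0 < s)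
    (h : (N - (s : ℂ) • (1 : Matrix ι ι ℂ)).PosSemidef) :
    ((N⁻¹).trace).re ≤ s⁻¹ * Fintype.card ι := by
  have h1 := trace_mul_inv_le hs h Matrix.PosSemidef.one
  rw [one_mul, Matrix.trace_one] at h1
  simpa using h1

end Pool.Agent.A1
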