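import Pool.Agent.Lib_helper50.A1.Prop1b
import Pool.Agent.Lib_helper59.A1.Defs

/-!
# Project A1: Proposition 1 for the weight `e ^ (-1 - α)`, in the letters of `A1W`
-/

set_option autoImplicit false

open scoped BigOperators ComplexOrder Kronecker MatrixOrder Topology
open MeasureTheory Set Matrix Filter

set_option linter.unusedSectionVars false
set_option linter.unusedVariables false

namespace Pool.Agent.A1W

open Pool.Agent.RC Pool.Agent.A1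

variable {ι κ : Type} [Fintype ι] [DecidableEq ι] [Fintype κ] [DecidableEq κ]
variable {R₁ D₁ : Matrix ι ι ℂ} {R₂ D₂ : Matrix κ κ ℂ}

theorem rpow_abs_bound (p : ℝ) {a b : ℝ} (ha : 0 < a) :
    ∃ G : ℝ, ∀ x ∈ Icc a b, |x ^ p| ≤ G := by
  have hc : ContinuousOn (fun x : ℝ => x ^ p) (Icc a b) := fun x hx =>
    (Real.continuousAt_rpow_const x p (Or.inl (lt_of_lt_of_le ha hx.1).ne')).continuousWithinAt
  obtain ⟨G, hG⟩ := isCompact_Icc.exists_bound_of_continuousOn hc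
  exact ⟨G, fun x hx => by simpa [Real.norm_eq_abs] using hG x hx⟩

theorem meas_rpow (p : ℝ) : Measurable fun x : ℝ => x ^ p := by fun_prop

/-- the three kernels for fixed `c` -/
theorem ub_g (h₁ : SPair R₁ D₁) (h₂ : SPair R₂ D₂) (α : ℝ) {a b : ℝ} (ha : 0 < a) (hab : a ≤ b) :
    ∃ C : ℝ,
      (∀ c ∈ Icc (-1 : ℝ) 1, UB (fun e w => e ^ (-1 - α) * (-(1 + α) * uA R₁ D₁ R₂ D₂ c e w +
        2 * uu R₁ D₁ R₂ D₂ c e 1 w - uu R₁ D₁ R₂ D₂ c e 0 w)) a b C) ∧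
      (∀ c ∈ Icc (-1 : ℝ) 1, UB (fun e w => e ^ (-α) * vv R₁ D₁ R₂ D₂ c e w) a b C) := by
  obtain ⟨C, hC0, hC⟩ := ub_t h₁ h₂
  obtain ⟨C', δ, hδ, hC'0, hC'⟩ := vv_bound h₁ h₂
  obtain ⟨G, hG⟩ := rpow_abs_bound (-1 - α) (b := b) ha
  obtain ⟨G', hG'⟩ := rpow_abs_bound (-α) (b := b) ha
  have k1 : ∀ c ∈ Icc (-1 : ℝ) 1, UB (fun e w => uA R₁ D₁ R₂ D₂ c e w) a b C :=
    fun c hc => ub_eA h₁ h₂ hC hc ha
  have k2 : ∀ c ∈ Icc (-1 : ℝ) 1, ∀ t ∈ Icc (0 : ℝ) 1,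
      UB (fun e w => uu R₁ D₁ R₂ D₂ c e t w) a b C := fun c hc t ht => ub_e1 h₁ h₂ hC hc ha ht
  have k3 : ∀ c ∈ Icc (-1 : ℝ) 1, UB (fun e w => vv R₁ D₁ R₂ D₂ c e w) a b C' := by
    intro c hc
    refine ⟨?_, fun e he => (hC' c hc e (ha.le.trans he.1)).1, fun e he => ?_⟩
    · exact (meas_vv R₁ D₁ R₂ D₂).comp (f := fun z : ℝ × ℝ => (c, z.1, z.2)) (by fun_prop)
    · refine (hC' c hc e (ha.le.trans he.1)).2.trans (div_le_self hC'0 ?_)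
      have : 0 ≤ e * δ := mul_nonneg (ha.le.trans he.1) hδ.le
      linarith
  have t0 : (0 : ℝ) ∈ Icc (0 : ℝ) 1 := ⟨le_rfl, zero_le_one⟩
  have t1 : (1 : ℝ) ∈ Icc (0 : ℝ) 1 := ⟨zero_le_one, le_rfl⟩
  have mono : ∀ {f : ℝ → ℝ → ℝ} {K K' : ℝ}, K ≤ K' → UB f a b K → UB f a b K' :=
    fun hK h => ⟨h.meas, h.int, fun x hx => (h.bd x hx).trans hK⟩
  have g1 : ∀ c ∈ Icc (-1 : ℝ) 1, UB (fun e w => e ^ (-1 - α) *
      (-(1 + α) * uA R₁ D₁ R₂ D₂ c e w +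
        2 * uu R₁ D₁ R₂ D₂ c e 1 w - uu R₁ D₁ R₂ D₂ c e 0 w)) a b
      (G * (|-(1 + α)| * C + |2| * C + C)) := by
    intro c hc
    exact UB.mul (((UB.mul (k1 c hc) (g := fun _ => -(1 + α)) (G := |-(1 + α)|) measurable_const
      (fun _ _ => le_rfl)).add (UB.mul (k2 c hc 1 t1) (g := fun _ => (2 : ℝ)) (G := |2|)
      measurable_const (fun _ _ => le_rfl))).sub (k2 c hc 0 t0)) (meas_rpow _) hG
  have g2 : ∀ c ∈ Icc (-1 : ℝ) 1, UB (fun e w => e ^ (-α) * vv R₁ D₁ R₂ D₂ c e w) a b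
      (G' * C') := fun c hc => UB.mul (k3 c hc) (meas_rpow _) hG'
  exact ⟨max (G * (|-(1 + α)| * C + |2| * C + C)) (G' * C'),
    fun c hc => mono (le_max_left _ _) (g1 c hc), fun c hc => mono (le_max_right _ _) (g2 c hc)⟩

/-- the `w`-integral of the first kernel -/
theorem int_g1 (h₁ : SPair R₁ D₁) (h₂ : SPair R₂ D₂) (α : ℝ) {c e : ℝ} (hc : c ∈ Icc (-1 : ℝ) 1)
    (he : 0 ≤ e) :
    2 / Real.pi * (∫ w in Ioi (0 : ℝ), e ^ (-1 - α) * (-(1 + α) * uA R₁ D₁ R₂ D₂ c e w +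
        2 * uu R₁ D₁ R₂ D₂ c e 1 w - uu R₁ D₁ R₂ D₂ c e 0 w)) =
      e ^ (-1 - α) * (-(1 + α) * pa R₁ D₁ R₂ D₂ c e + 2 * pc R₁ D₁ R₂ D₂ c e 1 -
        pc R₁ D₁ R₂ D₂ c e 0) := by
  obtain ⟨C, hC0, hC⟩ := ub_t h₁ h₂
  have t0 : (0 : ℝ) ∈ Icc (0 : ℝ) 1 := ⟨le_rfl, zero_le_one⟩
  have t1 : (1 : ℝ) ∈ Icc (0 : ℝ) 1 := ⟨zero_le_one, le_rfl⟩
  have iA : IntegrableOn (fun w => uA R₁ D₁ R₂ D₂ c e w) (Ioi 0) :=
    (hC c hc e he).integrableOn_integral zero_le_one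
  have i1 := iA.const_mul (-(1 + α))
  have i2 : IntegrableOn (fun w => 2 * uu R₁ D₁ R₂ D₂ c e 1 w) (Ioi 0) :=
    ((hC c hc e he).int 1 t1).const_mul 2
  have i3 : IntegrableOn (fun w => uu R₁ D₁ R₂ D₂ c e 0 w) (Ioi 0) := (hC c hc e he).int 0 t0
  have i12 : IntegrableOn (fun w => -(1 + α) * uA R₁ D₁ R₂ D₂ c e w +
      2 * uu R₁ D₁ R₂ D₂ c e 1 w) (Ioi 0) := i1.add i2
  have eA : ∫ w in Ioi (0 : ℝ), uA R₁ D₁ R₂ D₂ c e w =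
      ∫ t in (0 : ℝ)..1, ∫ w in Ioi (0 : ℝ), uu R₁ D₁ R₂ D₂ c e t w :=
    (hC c hc e he).swap zero_le_one
  rw [integral_const_mul, integral_sub i12 i3, integral_add i1 i2, integral_const_mul,
    integral_const_mul, eA]
  unfold pa pc
  rw [intervalIntegral.integral_const_mul]
  ring

theorem int_g2 (R₁ D₁ : Matrix ι ι ℂ) (R₂ D₂ : Matrix κ κ ℂ) (α c e : ℝ) :
    2 / Real.pi * (∫ w in Ioi (0 : ℝ), e ^ (-α) * vv R₁ D₁ R₂ D₂ c e w) =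
      e ^ (-α) * qc R₁ D₁ R₂ D₂ c e := by
  rw [integral_const_mul]
  unfold qc
  ring

theorem ii_g1 (h₁ : SPair R₁ D₁) (h₂ : SPair R₂ D₂) (α : ℝ) {c : ℝ} (hc : c ∈ Icc (-1 : ℝ) 1)
    {a b : ℝ} (ha : 0 < a) (hab : a ≤ b) :
    IntervalIntegrable (fun e => e ^ (-1 - α) * (-(1 + α) * pa R₁ D₁ R₂ D₂ c e +
      2 * pc R₁ D₁ R₂ D₂ c e 1 - pc R₁ D₁ R₂ D₂ c e 0)) volume a b := by
  obtain ⟨C, hC, -⟩ := ub_g h₁ h₂ α ha hab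
  have h := ((hC c hc).intervalIntegrable hab).const_mul (2 / Real.pi)
  apply h.congr
  intro e he
  rw [uIoc_of_le hab] at he
  exact int_g1 h₁ h₂ α hc (ha.le.trans he.1.le)

theorem ii_g2 (h₁ : SPair R₁ D₁) (h₂ : SPair R₂ D₂) (α : ℝ) {c : ℝ} (hc : c ∈ Icc (-1 : ℝ) 1)
    {a b : ℝ} (ha : 0 < a) (hab : a ≤ b) :
    IntervalIntegrable (fun e => e ^ (-α) * qc R₁ D₁ R₂ D₂ c e) volume a b := by
  obtain ⟨C, -, hC⟩ := ub_g h₁ h₂ α ha hab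
  have h := ((hC c hc).intervalIntegrable hab).const_mul (2 / Real.pi)
  apply h.congr
  intro e he
  exact int_g2 R₁ D₁ R₂ D₂ α c e

/-- integrability in `c` of the iterated integral of the first kernel -/
theorem ii_c1 (h₁ : SPair R₁ D₁) (h₂ : SPair R₂ D₂) (α : ℝ)
    {a b : ℝ} (ha : 0 < a) (hab : a ≤ b) :
    IntervalIntegrable (fun c => ∫ e in a..b, e ^ (-1 - α) * (-(1 + α) * pa R₁ D₁ R₂ D₂ c e +
      2 * pc R₁ D₁ R₂ D₂ c e 1 - pc R₁ D₁ R₂ D₂ c e 0)) volume (-1) 1 := by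
  have h11 : (-1 : ℝ) ≤ 1 := by norm_num
  obtain ⟨C, hC, -⟩ := ub_g h₁ h₂ α ha hab
  have mG : Measurable fun z : ℝ × ℝ × ℝ => z.2.1 ^ (-1 - α) *
      (-(1 + α) * uA R₁ D₁ R₂ D₂ z.1 z.2.1 z.2.2 +
        2 * uu R₁ D₁ R₂ D₂ z.1 z.2.1 1 z.2.2 - uu R₁ D₁ R₂ D₂ z.1 z.2.1 0 z.2.2) := by
    have m1 : Measurable fun z : ℝ × ℝ × ℝ => uu R₁ D₁ R₂ D₂ z.1 z.2.1 1 z.2.2 :=
      (meas_uu R₁ D₁ R₂ D₂).comp (f := fun z : ℝ × ℝ × ℝ => (z.1, z.2.1, (1 : ℝ), z.2.2))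
        (by fun_prop)
    have m0 : Measurable fun z : ℝ × ℝ × ℝ => uu R₁ D₁ R₂ D₂ z.1 z.2.1 0 z.2.2 :=
      (meas_uu R₁ D₁ R₂ D₂).comp (f := fun z : ℝ × ℝ × ℝ => (z.1, z.2.1, (0 : ℝ), z.2.2))
        (by fun_prop)
    have me : Measurable fun z : ℝ × ℝ × ℝ => z.2.1 := by fun_prop
    exact ((meas_rpow (-1 - α)).comp me).mul
      (((measurable_const.mul (meas_uA R₁ D₁ R₂ D₂)).add (measurable_const.mul m1)).sub m0)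
  have kN := UB.nest (g := fun c e w => e ^ (-1 - α) * (-(1 + α) * uA R₁ D₁ R₂ D₂ c e w +
      2 * uu R₁ D₁ R₂ D₂ c e 1 w - uu R₁ D₁ R₂ D₂ c e 0 w)) hab mG hC
  have h := (kN.intervalIntegrable h11).const_mul (2 / Real.pi)
  apply h.congr
  intro c hc
  rw [uIoc_of_le h11] at hc
  have hc' : c ∈ Icc (-1 : ℝ) 1 := Ioc_subset_Icc_self hc
  simp only
  rw [(hC c hc').swap hab, ← intervalIntegral.integral_const_mul]
  apply intervalIntegral.integral_congr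
  intro e he
  rw [uIcc_of_le hab] at he
  exact int_g1 h₁ h₂ α hc' (ha.le.trans he.1)

theorem ii_c2 (h₁ : SPair R₁ D₁) (h₂ : SPair R₂ D₂) (α : ℝ)
    {a b : ℝ} (ha : 0 < a) (hab : a ≤ b) :
    IntervalIntegrable (fun c => ∫ e in a..b, e ^ (-α) * qc R₁ D₁ R₂ D₂ c e) volume (-1) 1 := by
  have h11 : (-1 : ℝ) ≤ 1 := by norm_num
  obtain ⟨C, -, hC⟩ := ub_g h₁ h₂ α ha hab
  have mG : Measurable fun z : ℝ × ℝ × ℝ => z.2.1 ^ (-α) * vv R₁ D₁ R₂ D₂ z.1 z.2.1 z.2.2 := by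
    have me : Measurable fun z : ℝ × ℝ × ℝ => z.2.1 := by fun_prop
    exact ((meas_rpow (-α)).comp me).mul (meas_vv R₁ D₁ R₂ D₂)
  have kN := UB.nest (g := fun c e w => e ^ (-α) * vv R₁ D₁ R₂ D₂ c e w) hab mG hC
  have h := (kN.intervalIntegrable h11).const_mul (2 / Real.pi)
  apply h.congr
  intro c hc
  rw [uIoc_of_le h11] at hc
  have hc' : c ∈ Icc (-1 : ℝ) 1 := Ioc_subset_Icc_self hc
  simp only
  rw [(hC c hc').swap hab, ← intervalIntegral.integral_const_mul]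
  apply intervalIntegral.integral_congr
  intro e he
  exact int_g2 R₁ D₁ R₂ D₂ α c e

theorem ii_pa (h₁ : SPair R₁ D₁) (h₂ : SPair R₂ D₂) {e : ℝ} (he : 0 ≤ e) :
    IntervalIntegrable (fun c => pa R₁ D₁ R₂ D₂ c e) volume (-1) 1 := by
  have h11 : (-1 : ℝ) ≤ 1 := by norm_num
  obtain ⟨C, hC0, hC⟩ := ub_t h₁ h₂
  have h := ((ub_cA h₁ h₂ hC he).intervalIntegrable h11).const_mul (2 / Real.pi)
  apply h.congr
  intro c hc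
  rw [uIoc_of_le h11] at hc
  have hc' : c ∈ Icc (-1 : ℝ) 1 := Ioc_subset_Icc_self hc
  simp only
  have eA : ∫ w in Ioi (0 : ℝ), uA R₁ D₁ R₂ D₂ c e w =
      ∫ t in (0 : ℝ)..1, ∫ w in Ioi (0 : ℝ), uu R₁ D₁ R₂ D₂ c e t w :=
    (hC c hc' e he).swap zero_le_one
  rw [eA]
  unfold pa pc
  rw [intervalIntegral.integral_const_mul]

/-- **Proposition 1**, weight `e ^ (-1 - α)`; `hb` is the evaluation of the boundary terms -/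
theorem fub_aux (h₁ : SPair R₁ D₁) (h₂ : SPair R₂ D₂)
    (hb : ∀ e : ℝ, 0 < e → e * (∫ t in (0 : ℝ)..1, rC R₁ D₁ R₂ D₂ 1 e t) -
        e * (∫ t in (0 : ℝ)..1, rC R₁ D₁ R₂ D₂ (-1) e t) = GG R₁ D₁ R₂ D₂ e)
    (α : ℝ) {a b : ℝ} (ha : 0 < a) (hab : a ≤ b) :
    ∫ e in a..b, e ^ (-1 - α) * GG R₁ D₁ R₂ D₂ e =
      (∫ c in (-1 : ℝ)..1, (-(b ^ (-α) * pa R₁ D₁ R₂ D₂ c b) + a ^ (-α) * pa R₁ D₁ R₂ D₂ c a
        + ∫ e in a..b, e ^ (-1 - α) * (-(1 + α) * pa R₁ D₁ R₂ D₂ c e +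
          2 * pc R₁ D₁ R₂ D₂ c e 1 - pc R₁ D₁ R₂ D₂ c e 0)))
      + ∫ c in (-1 : ℝ)..1, ∫ e in a..b, e ^ (-α) * qc R₁ D₁ R₂ D₂ c e := by
  have h11 : (-1 : ℝ) ≤ 1 := by norm_num
  have hb0 : 0 < b := lt_of_lt_of_le ha hab
  have k1 : ∀ e : ℝ, 0 < e → e ^ (-1 - α) * e = e ^ (-α) := by
    intro e he
    rw [← Real.rpow_add_one he.ne']
    congr 1
    ring
  have k2 : ∀ e : ℝ, 0 < e → e ^ (-1 - α - 1) * e = e ^ (-1 - α) := by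
    intro e he
    rw [← Real.rpow_add_one he.ne']
    congr 1
    ring
  have hP := prop1 h₁ h₂ ha hab (fun e => e ^ (-1 - α)) (fun e => (-1 - α) * e ^ (-1 - α - 1))
    (fun e he => Real.hasDerivAt_rpow_const (Or.inl he.ne'))
    (fun x hx => ((Real.continuousAt_rpow_const x _
      (Or.inl (ne_of_gt hx))).const_mul (-1 - α)).continuousWithinAt)
    (meas_rpow _) ((meas_rpow _).const_mul _)
  have hL : (∫ e in a..b, e ^ (-1 - α) * GG R₁ D₁ R₂ D₂ e) =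
      ∫ e in a..b, e ^ (-1 - α) * (e * (∫ t in (0 : ℝ)..1, rC R₁ D₁ R₂ D₂ 1 e t) -
        e * ∫ t in (0 : ℝ)..1, rC R₁ D₁ R₂ D₂ (-1) e t) := by
    apply intervalIntegral.integral_congr
    intro e he
    rw [uIcc_of_le hab] at he
    simp only
    rw [hb e (lt_of_lt_of_le ha he.1)]
  rw [hL]
  refine hP.trans ?_
  have iA : IntervalIntegrable (fun c => -(b ^ (-α) * pa R₁ D₁ R₂ D₂ c b) +
      a ^ (-α) * pa R₁ D₁ R₂ D₂ c a + ∫ e in a..b, e ^ (-1 - α) *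
        (-(1 + α) * pa R₁ D₁ R₂ D₂ c e +
          2 * pc R₁ D₁ R₂ D₂ c e 1 - pc R₁ D₁ R₂ D₂ c e 0)) volume (-1) 1 :=
    ((((ii_pa h₁ h₂ hb0.le).const_mul (b ^ (-α))).neg).add
      ((ii_pa h₁ h₂ ha.le).const_mul (a ^ (-α)))).add (ii_c1 h₁ h₂ α ha hab)
  rw [← intervalIntegral.integral_add iA (ii_c2 h₁ h₂ α ha hab)]
  apply intervalIntegral.integral_congr
  intro c hc
  rw [uIcc_of_le h11] at hc
  simp only
  have e1 : ∫ e in a..b, ((-1 - α) * e ^ (-1 - α - 1) *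
        (e * ∫ t in (0 : ℝ)..1, pC R₁ D₁ R₂ D₂ c e t) +
        e ^ (-1 - α) * (2 * pC R₁ D₁ R₂ D₂ c e 1 - pC R₁ D₁ R₂ D₂ c e 0) +
        e ^ (-1 - α) * (e * qC R₁ D₁ R₂ D₂ c e)) =
      ∫ e in a..b, (e ^ (-1 - α) * (-(1 + α) * pa R₁ D₁ R₂ D₂ c e +
          2 * pc R₁ D₁ R₂ D₂ c e 1 - pc R₁ D₁ R₂ D₂ c e 0) +
        e ^ (-α) * qc R₁ D₁ R₂ D₂ c e) := by
    apply intervalIntegral.integral_congr
    intro e he
    rw [uIcc_of_le hab] at he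
    have he0 : 0 < e := lt_of_lt_of_le ha he.1
    simp only
    have q1 := k1 e he0
    have q2 := k2 e he0
    have e3 : (-1 - α) * e ^ (-1 - α - 1) * (e * ∫ t in (0 : ℝ)..1, pC R₁ D₁ R₂ D₂ c e t) =
        (-1 - α) * (e ^ (-1 - α - 1) * e) * ∫ t in (0 : ℝ)..1, pC R₁ D₁ R₂ D₂ c e t := by ring
    have e4 : e ^ (-1 - α) * (e * qC R₁ D₁ R₂ D₂ c e) =
        (e ^ (-1 - α) * e) * qC R₁ D₁ R₂ D₂ c e := by ring
    rw [e3, e4, q1, q2]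
    change (-1 - α) * e ^ (-1 - α) * pa R₁ D₁ R₂ D₂ c e +
      e ^ (-1 - α) * (2 * pc R₁ D₁ R₂ D₂ c e 1 - pc R₁ D₁ R₂ D₂ c e 0) +
      e ^ (-α) * qc R₁ D₁ R₂ D₂ c e = _
    ring
  rw [e1, intervalIntegral.integral_add (ii_g1 h₁ h₂ α hc ha hab) (ii_g2 h₁ h₂ α hc ha hab)]
  have e5 : ∀ x : ℝ, 0 < x → x ^ (-1 - α) * (x * ∫ t in (0 : ℝ)..1, pC R₁ D₁ R₂ D₂ c x t) =
      x ^ (-α) * pa R₁ D₁ R₂ D₂ c x := by
    intro x hx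
    rw [← mul_assoc, k1 x hx]
    rfl
  rw [e5 b hb0, e5 a ha]
  ring

end Pool.Agent.A1W
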