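import Mathlib

/-!
# Project A1 (MP_859019_mp): linear algebra of the pencil `N + i w J`
-/

open scoped BigOperators ComplexOrder Kronecker MatrixOrder Topology
open MeasureTheory Set Matrix Filter

namespace Pool.Agent.A1

variable {ι : Type} [Fintype ι] [DecidableEq ι]

/-- `N + i w J` -/
noncomputable def Zm (N J : Matrix ι ι ℂ) (w : ℝ) : Matrix ι ι ℂ :=
  N + ((w : ℂ) * Complex.I) • J

theorem exists_diag {D : Matrix ι ι ℂ} (hD : D.IsHermitian) :
    ∃ (U : Matrix ι ι ℂ) (η : ι → ℝ), U * Uᴴ = 1 ∧ Uᴴ * U = 1 ∧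
      Uᴴ * D * U = Matrix.diagonal (fun i => (η i : ℂ)) := by
  refine ⟨(hD.eigenvectorUnitary : Matrix ι ι ℂ), hD.eigenvalues, ?_, ?_, ?_⟩
  · exact (Matrix.mem_unitaryGroup_iff).1 hD.eigenvectorUnitary.2
  · exact (Matrix.mem_unitaryGroup_iff').1 hD.eigenvectorUnitary.2
  · have := hD.conjStarAlgAut_star_eigenvectorUnitary
    rw [Unitary.conjStarAlgAut_star_apply] at this
    rw [← Matrix.star_eq_conjTranspose, this]
    rfl

/-- a simultaneous frame: `Vᴴ N V = 1`, `Vᴴ J V = diag l`, `W = V⁻¹` -/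
structure Frame (N J V W : Matrix ι ι ℂ) (l : ι → ℝ) : Prop where
  vw : V * W = 1
  wv : W * V = 1
  hN : Vᴴ * N * V = 1
  hJ : Vᴴ * J * V = Matrix.diagonal (fun i => (l i : ℂ))

theorem exists_frame {N J : Matrix ι ι ℂ} (hN : N.PosDef) (hJ : J.IsHermitian) :
    ∃ (V W : Matrix ι ι ℂ) (l : ι → ℝ), Frame N J V W l := by
  have hR : (N⁻¹).PosDef := hN.inv
  have hdet : IsUnit N.det := (Matrix.isUnit_iff_isUnit_det _).1 hN.isUnit
  obtain ⟨C, hC⟩ := CStarAlgebra.nonneg_iff_eq_star_mul_self.mp hR.posSemidef.nonneg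
  have hC' : N⁻¹ = Cᴴ * C := hC
  have hH : (C * J * Cᴴ).IsHermitian := by
    have := Matrix.isHermitian_mul_mul_conjTranspose C hJ
    simpa using this
  obtain ⟨U, η, hU1, hU2, hU3⟩ := exists_diag hH
  have h1 : (Cᴴ * U) * (Uᴴ * C) = N⁻¹ := by
    rw [hC']
    calc Cᴴ * U * (Uᴴ * C) = Cᴴ * (U * Uᴴ) * C := by noncomm_ring
      _ = Cᴴ * C := by rw [hU1]; simp
  have h2 : (Cᴴ * U) * (Uᴴ * C * N) = 1 := by
    rw [← mul_assoc, h1, Matrix.nonsing_inv_mul _ hdet]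
  have h3 : (Uᴴ * C * N) * (Cᴴ * U) = 1 := mul_eq_one_comm.1 h2
  refine ⟨Cᴴ * U, Uᴴ * C * N, η, h2, h3, ?_, ?_⟩
  · simpa [Matrix.conjTranspose_mul, mul_assoc] using h3
  · rw [← hU3]; simp [Matrix.conjTranspose_mul, mul_assoc]

namespace Frame

variable {N J V W : Matrix ι ι ℂ} {l : ι → ℝ}

theorem vw' (h : Frame N J V W l) : Wᴴ * Vᴴ = 1 := by
  rw [← Matrix.conjTranspose_mul, h.vw, Matrix.conjTranspose_one]

theorem wv' (h : Frame N J V W l) : Vᴴ * Wᴴ = 1 := by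
  rw [← Matrix.conjTranspose_mul, h.wv, Matrix.conjTranspose_one]

theorem eqN (h : Frame N J V W l) : N = Wᴴ * W := by
  calc N = (Wᴴ * Vᴴ) * N * (V * W) := by rw [h.vw', h.vw]; simp
    _ = Wᴴ * (Vᴴ * N * V) * W := by noncomm_ring
    _ = Wᴴ * W := by rw [h.hN]; simp

theorem eqJ (h : Frame N J V W l) : J = Wᴴ * Matrix.diagonal (fun i => (l i : ℂ)) * W := by
  calc J = (Wᴴ * Vᴴ) * J * (V * W) := by rw [h.vw', h.vw]; simp
    _ = Wᴴ * (Vᴴ * J * V) * W := by noncomm_ring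
    _ = _ := by rw [h.hJ]

theorem one_add_ne (x : ℝ) : (1 : ℂ) + (x : ℂ) * Complex.I ≠ 0 := by
  intro h
  have := congrArg Complex.re h
  simp at this

theorem eqZ (h : Frame N J V W l) (w : ℝ) : Zm N J w =
    Wᴴ * Matrix.diagonal (fun i => 1 + ((w * l i : ℝ) : ℂ) * Complex.I) * W := by
  unfold Zm
  have e : Matrix.diagonal (fun i => 1 + ((w * l i : ℝ) : ℂ) * Complex.I) =
      1 + ((w : ℂ) * Complex.I) • Matrix.diagonal (fun i => (l i : ℂ)) := by
    ext i j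
    by_cases hij : i = j
    · subst hij; simp; ring
    · simp [hij]
  rw [e, mul_add, add_mul, mul_one, Matrix.mul_smul, Matrix.smul_mul, ← h.eqJ, ← h.eqN]

/-- the inverse of `N + i w J` in a frame -/
theorem invZ (h : Frame N J V W l) (w : ℝ) : (Zm N J w)⁻¹ =
    V * Matrix.diagonal (fun i => (1 + ((w * l i : ℝ) : ℂ) * Complex.I)⁻¹) * Vᴴ := by
  apply Matrix.inv_eq_right_inv
  rw [h.eqZ w]
  have e : Matrix.diagonal (fun i => 1 + ((w * l i : ℝ) : ℂ) * Complex.I) *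
      Matrix.diagonal (fun i => (1 + ((w * l i : ℝ) : ℂ) * Complex.I)⁻¹) = 1 := by
    rw [Matrix.diagonal_mul_diagonal]
    rw [← Matrix.diagonal_one]
    congr 1
    funext i
    exact mul_inv_cancel₀ (one_add_ne _)
  calc Wᴴ * Matrix.diagonal (fun i => 1 + ((w * l i : ℝ) : ℂ) * Complex.I) * W *
        (V * Matrix.diagonal (fun i => (1 + ((w * l i : ℝ) : ℂ) * Complex.I)⁻¹) * Vᴴ)
      = Wᴴ * (Matrix.diagonal (fun i => 1 + ((w * l i : ℝ) : ℂ) * Complex.I) * (W * V) *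
        Matrix.diagonal (fun i => (1 + ((w * l i : ℝ) : ℂ) * Complex.I)⁻¹)) * Vᴴ := by
        noncomm_ring
    _ = 1 := by rw [h.wv, mul_one, e, mul_one, h.vw']

theorem isUnitZ (h : Frame N J V W l) (w : ℝ) : IsUnit (Zm N J w) := by
  rw [h.eqZ w]
  have hW : IsUnit W := IsUnit.of_mul_eq_one _ h.wv
  have hW' : IsUnit Wᴴ := IsUnit.of_mul_eq_one _ h.vw'
  have hD : IsUnit (Matrix.diagonal (fun i => 1 + ((w * l i : ℝ) : ℂ) * Complex.I)) := by
    apply IsUnit.of_mul_eq_one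
      (Matrix.diagonal (fun i => (1 + ((w * l i : ℝ) : ℂ) * Complex.I)⁻¹))
    rw [Matrix.diagonal_mul_diagonal, ← Matrix.diagonal_one]
    congr 1
    funext i
    exact mul_inv_cancel₀ (one_add_ne _)
  exact (hW'.mul hD).mul hW

/-- the diagonal of `Vᴴ B V` -/
noncomputable def dgn (V B : Matrix ι ι ℂ) (k : ι) : ℂ := (Vᴴ * B * V) k k

theorem trace_invZ (h : Frame N J V W l) (B : Matrix ι ι ℂ) (w : ℝ) :
    (B * (Zm N J w)⁻¹).trace = ∑ k, dgn V B k * (1 + ((w * l k : ℝ) : ℂ) * Complex.I)⁻¹ := by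
  rw [h.invZ w]
  have e : (B * (V * Matrix.diagonal (fun i => (1 + ((w * l i : ℝ) : ℂ) * Complex.I)⁻¹) *
      Vᴴ)).trace = (Vᴴ * B * V *
        Matrix.diagonal (fun i => (1 + ((w * l i : ℝ) : ℂ) * Complex.I)⁻¹)).trace := by
    calc _ = ((B * V * Matrix.diagonal
          (fun i => (1 + ((w * l i : ℝ) : ℂ) * Complex.I)⁻¹)) * Vᴴ).trace := by
          congr 1; noncomm_ring
      _ = (Vᴴ * (B * V * Matrix.diagonal
          (fun i => (1 + ((w * l i : ℝ) : ℂ) * Complex.I)⁻¹))).trace := Matrix.trace_mul_comm _ _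
      _ = _ := by congr 1; noncomm_ring
  rw [e]
  unfold Matrix.trace dgn
  apply Finset.sum_congr rfl
  intro k _
  rw [Matrix.diag_apply, Matrix.mul_diagonal]

omit [DecidableEq ι] in
theorem dgn_im {B : Matrix ι ι ℂ} (hB : B.IsHermitian) (V : Matrix ι ι ℂ) (k : ι) :
    (dgn V B k).im = 0 := by
  have h1 : (Vᴴ * B * V).IsHermitian := Matrix.isHermitian_conjTranspose_mul_mul V hB
  have h2 := h1.apply k k
  unfold dgn
  have h3 := congrArg Complex.im h2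
  rw [Complex.star_def, Complex.conj_im] at h3
  linarith

theorem re_inv (x : ℝ) : ((1 + (x : ℂ) * Complex.I)⁻¹).re = (1 + x ^ 2)⁻¹ := by
  rw [Complex.inv_re, Complex.normSq_apply]
  simp
  field_simp

theorem im_inv (x : ℝ) : ((1 + (x : ℂ) * Complex.I)⁻¹).im = - x * (1 + x ^ 2)⁻¹ := by
  rw [Complex.inv_im, Complex.normSq_apply]
  simp
  field_simp

theorem re_trace (h : Frame N J V W l) {B : Matrix ι ι ℂ} (hB : B.IsHermitian) (w : ℝ) :
    ((B * (Zm N J w)⁻¹).trace).re = ∑ k, (dgn V B k).re * (1 + (w * l k) ^ 2)⁻¹ := by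
  rw [h.trace_invZ, Complex.re_sum]
  apply Finset.sum_congr rfl
  intro k _
  rw [Complex.mul_re, dgn_im hB, re_inv]
  ring

theorem im_trace (h : Frame N J V W l) {B : Matrix ι ι ℂ} (hB : B.IsHermitian) (w : ℝ) :
    ((B * (Zm N J w)⁻¹).trace).im = - w * ∑ k, (dgn V B k).re * (l k * (1 + (w * l k) ^ 2)⁻¹) := by
  rw [h.trace_invZ, Complex.im_sum, Finset.mul_sum]
  apply Finset.sum_congr rfl
  intro k _
  rw [Complex.mul_im, dgn_im hB, im_inv]
  ring

end Frame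

end Pool.Agent.A1
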