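import Pool.Agent.Lib_helper50.A1.Ub2

/-!
# Project A1: Proposition 1 (integration of `(P_w)` over `w`)
-/

open scoped BigOperators ComplexOrder Kronecker MatrixOrder Topology
open MeasureTheory Set Matrix Filter

set_option linter.unusedSectionVars false
set_option linter.unusedVariables false

namespace Pool.Agent.A1

variable {ι κ : Type} [Fintype ι] [DecidableEq ι] [Fintype κ] [DecidableEq κ]

/-! ### closure properties of `UB` -/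

theorem UB.mul {f : ℝ → ℝ → ℝ} {a b C G : ℝ} (h : UB f a b C) {g : ℝ → ℝ} (hg : Measurable g)
    (hG : ∀ x ∈ Icc a b, |g x| ≤ G) :
    UB (fun x w => g x * f x w) a b (G * C) where
  meas := (hg.comp measurable_fst).mul h.meas
  int := fun x hx => (h.int x hx).const_mul _
  bd := by
    intro x hx
    have h1 : ∫ w in Ioi (0 : ℝ), |g x * f x w| = |g x| * ∫ w in Ioi (0 : ℝ), |f x w| := by
      rw [← integral_const_mul]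
      congr 1
      funext w
      rw [abs_mul]
    rw [h1]
    exact mul_le_mul (hG x hx) (h.bd x hx) (integral_nonneg fun _ => abs_nonneg _)
      ((abs_nonneg _).trans (hG x hx))

theorem UB.add {f g : ℝ → ℝ → ℝ} {a b C C' : ℝ} (hf : UB f a b C) (hg : UB g a b C') :
    UB (fun x w => f x w + g x w) a b (C + C') where
  meas := hf.meas.add hg.meas
  int := fun x hx => (hf.int x hx).add (hg.int x hx)
  bd := by
    intro x hx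
    have h1 : ∫ w in Ioi (0 : ℝ), |f x w + g x w| ≤ ∫ w in Ioi (0 : ℝ), (|f x w| + |g x w|) := by
      apply integral_mono ((hf.int x hx).add (hg.int x hx)).abs
        ((hf.int x hx).abs.add (hg.int x hx).abs)
      intro w
      exact abs_add_le _ _
    refine h1.trans ?_
    rw [integral_add (hf.int x hx).abs (hg.int x hx).abs]
    exact add_le_add (hf.bd x hx) (hg.bd x hx)

theorem UB.neg {f : ℝ → ℝ → ℝ} {a b C : ℝ} (hf : UB f a b C) :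
    UB (fun x w => - f x w) a b C where
  meas := hf.meas.neg
  int := fun x hx => (hf.int x hx).neg
  bd := by
    intro x hx
    simp only [abs_neg]
    exact hf.bd x hx

theorem UB.sub {f g : ℝ → ℝ → ℝ} {a b C C' : ℝ} (hf : UB f a b C) (hg : UB g a b C') :
    UB (fun x w => f x w - g x w) a b (C + C') := by
  simp only [sub_eq_add_neg]
  exact hf.add hg.neg

/-! ### the letters -/

variable (R₁ D₁ : Matrix ι ι ℂ) (R₂ D₂ : Matrix κ κ ℂ)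

/-- `p(c,ε,t) = (2/π) ∫ Re Tr Δ_c Z_t⁻¹ dw` -/
noncomputable def pC (c e t : ℝ) : ℝ := 2 / Real.pi * ∫ w in Ioi (0 : ℝ), uu R₁ D₁ R₂ D₂ c e t w

/-- `q(c,ε) = (2/π) ∫ - Im Tr (D₁ ⊗ R₂) Z_0⁻¹ / w dw` -/
noncomputable def qC (c e : ℝ) : ℝ := 2 / Real.pi * ∫ w in Ioi (0 : ℝ), vv R₁ D₁ R₂ D₂ c e w

/-- `(2/π) ∫ Im Tr Δ_c Z_t⁻¹ / w dw` -/
noncomputable def rC (c e t : ℝ) : ℝ := 2 / Real.pi * ∫ w in Ioi (0 : ℝ), ui R₁ D₁ R₂ D₂ c e t w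

theorem meas_tz {B : ℝ × ℝ × ℝ × ℝ → Matrix (ι × κ) (ι × κ) ℂ} (hB : Continuous B) :
    Measurable fun x : ℝ × ℝ × ℝ × ℝ => tz R₁ D₁ R₂ D₂ (B x) x.1 x.2.1 x.2.2.1 x.2.2.2 :=
  measurable_trace_inv hB (continuous_Z R₁ D₁ R₂ D₂)

theorem meas_uu : Measurable fun x : ℝ × ℝ × ℝ × ℝ =>
    uu R₁ D₁ R₂ D₂ x.1 x.2.1 x.2.2.1 x.2.2.2 :=
  Complex.measurable_re.comp (meas_tz R₁ D₁ R₂ D₂ ((continuous_Dc D₁ R₂ D₂).comp continuous_fst))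

theorem meas_ui : Measurable fun x : ℝ × ℝ × ℝ × ℝ =>
    ui R₁ D₁ R₂ D₂ x.1 x.2.1 x.2.2.1 x.2.2.2 := by
  unfold ui
  exact (measurable_const.div (by fun_prop)).mul (Complex.measurable_im.comp
    (meas_tz R₁ D₁ R₂ D₂ ((continuous_Dc D₁ R₂ D₂).comp continuous_fst)))

theorem meas_vv : Measurable fun x : ℝ × ℝ × ℝ => vv R₁ D₁ R₂ D₂ x.1 x.2.1 x.2.2 := by
  unfold vv
  have h1 : Measurable fun x : ℝ × ℝ × ℝ => (tz R₁ D₁ R₂ D₂ (D₁ ⊗ₖ R₂) x.1 x.2.1 0 x.2.2) :=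
    (meas_tz R₁ D₁ R₂ D₂ (B := fun _ => D₁ ⊗ₖ R₂) continuous_const).comp
      (g := fun x : ℝ × ℝ × ℝ × ℝ => tz R₁ D₁ R₂ D₂ (D₁ ⊗ₖ R₂) x.1 x.2.1 x.2.2.1 x.2.2.2)
      (f := fun x : ℝ × ℝ × ℝ => (x.1, x.2.1, (0 : ℝ), x.2.2)) (by fun_prop)
  exact (Measurable.neg (measurable_const.div (by fun_prop))).mul
    (Complex.measurable_im.comp h1)

/-- `∫_0^1 uu dt` -/
noncomputable def uA (c e w : ℝ) : ℝ := ∫ t in (0 : ℝ)..1, uu R₁ D₁ R₂ D₂ c e t w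

theorem meas_uA : Measurable fun x : ℝ × ℝ × ℝ => uA R₁ D₁ R₂ D₂ x.1 x.2.1 x.2.2 := by
  have h1 : Measurable fun z : (ℝ × ℝ × ℝ) × ℝ => uu R₁ D₁ R₂ D₂ z.1.1 z.1.2.1 z.2 z.1.2.2 :=
    (meas_uu R₁ D₁ R₂ D₂).comp
      (f := fun z : (ℝ × ℝ × ℝ) × ℝ => (z.1.1, z.1.2.1, z.2, z.1.2.2)) (by fun_prop)
  have h2 : StronglyMeasurable fun z : ℝ × ℝ × ℝ =>
      ∫ t in Ioc (0 : ℝ) 1, uu R₁ D₁ R₂ D₂ z.1 z.2.1 t z.2.2 :=
    h1.stronglyMeasurable.integral_prod_right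
  unfold uA
  simp only [intervalIntegral.integral_of_le (zero_le_one' ℝ)]
  exact h2.measurable

variable {R₁ D₁ R₂ D₂}

theorem ub_t (h₁ : SPair R₁ D₁) (h₂ : SPair R₂ D₂) :
    ∃ C : ℝ, 0 ≤ C ∧ ∀ c ∈ Icc (-1 : ℝ) 1, ∀ e, 0 ≤ e →
      UB (fun t w => uu R₁ D₁ R₂ D₂ c e t w) 0 1 C := by
  obtain ⟨C, hC⟩ := uu_bound h₁ h₂
  have hUB : ∀ c ∈ Icc (-1 : ℝ) 1, ∀ e, 0 ≤ e → UB (fun t w => uu R₁ D₁ R₂ D₂ c e t w) 0 1 C := by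
    intro c hc e he
    refine ⟨?_, fun t ht => (hC c hc e he t ht).1, fun t ht => (hC c hc e he t ht).2⟩
    exact (meas_uu R₁ D₁ R₂ D₂).comp (f := fun z : ℝ × ℝ => (c, e, z.1, z.2)) (by fun_prop)
  refine ⟨C, (hUB 0 (by constructor <;> norm_num) 0 le_rfl).nonneg_C zero_le_one, hUB⟩

/-- for fixed `t` -/
theorem ub_e1 (h₁ : SPair R₁ D₁) (h₂ : SPair R₂ D₂) {C : ℝ}
    (hC : ∀ c ∈ Icc (-1 : ℝ) 1, ∀ e, 0 ≤ e → UB (fun t w => uu R₁ D₁ R₂ D₂ c e t w) 0 1 C)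
    {c : ℝ} (hc : c ∈ Icc (-1 : ℝ) 1) {a b : ℝ} (ha : 0 < a) {t : ℝ} (ht : t ∈ Icc (0 : ℝ) 1) :
    UB (fun e w => uu R₁ D₁ R₂ D₂ c e t w) a b C where
  meas := (meas_uu R₁ D₁ R₂ D₂).comp (f := fun z : ℝ × ℝ => (c, z.1, t, z.2)) (by fun_prop)
  int := fun e he => (hC c hc e (ha.le.trans he.1)).int t ht
  bd := fun e he => (hC c hc e (ha.le.trans he.1)).bd t ht

theorem ub_eA (h₁ : SPair R₁ D₁) (h₂ : SPair R₂ D₂) {C : ℝ}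
    (hC : ∀ c ∈ Icc (-1 : ℝ) 1, ∀ e, 0 ≤ e → UB (fun t w => uu R₁ D₁ R₂ D₂ c e t w) 0 1 C)
    {c : ℝ} (hc : c ∈ Icc (-1 : ℝ) 1) {a b : ℝ} (ha : 0 < a) :
    UB (fun e w => uA R₁ D₁ R₂ D₂ c e w) a b C := by
  have h := UB.nest (g := fun e t w => uu R₁ D₁ R₂ D₂ c e t w) (a := a) (b := b) (c := 0) (d := 1)
    (C := C) zero_le_one
    ((meas_uu R₁ D₁ R₂ D₂).comp (f := fun z : ℝ × ℝ × ℝ => (c, z.1, z.2.1, z.2.2)) (by fun_prop))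
    (fun e he => hC c hc e (ha.le.trans he.1))
  rw [sub_zero, mul_one] at h
  exact h

theorem ub_cA (h₁ : SPair R₁ D₁) (h₂ : SPair R₂ D₂) {C : ℝ}
    (hC : ∀ c ∈ Icc (-1 : ℝ) 1, ∀ e, 0 ≤ e → UB (fun t w => uu R₁ D₁ R₂ D₂ c e t w) 0 1 C)
    {e : ℝ} (he : 0 ≤ e) : UB (fun c w => uA R₁ D₁ R₂ D₂ c e w) (-1) 1 C := by
  have h := UB.nest (g := fun c t w => uu R₁ D₁ R₂ D₂ c e t w) (a := -1) (b := 1) (c := 0)
    (d := 1) (C := C) zero_le_one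
    ((meas_uu R₁ D₁ R₂ D₂).comp (f := fun z : ℝ × ℝ × ℝ => (z.1, e, z.2.1, z.2.2)) (by fun_prop))
    (fun c hc => hC c hc e he)
  rw [sub_zero, mul_one] at h
  exact h

/-- uniform bound for the `q` integrand -/
theorem vv_bound (h₁ : SPair R₁ D₁) (h₂ : SPair R₂ D₂) :
    ∃ C δ : ℝ, 0 < δ ∧ 0 ≤ C ∧ ∀ c ∈ Icc (-1 : ℝ) 1, ∀ e, 0 ≤ e →
      IntegrableOn (vv R₁ D₁ R₂ D₂ c e) (Ioi 0) ∧
      ∫ w in Ioi (0 : ℝ), |vv R₁ D₁ R₂ D₂ c e w| ≤ C / (1 + e * δ) := by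
  obtain ⟨δ, b, hδ, hb, hM⟩ := Mt_bounds h₁ h₂
  have hB : (D₁ ⊗ₖ R₂).IsHermitian := herm_kron h₁.herm h₂.posDef.1
  refine ⟨Real.pi / 2 * Real.sqrt (Fintype.card (ι × κ) *
    |(((D₁ ⊗ₖ R₂)ᴴ * (D₁ ⊗ₖ R₂)).trace).re|), δ, hδ, by positivity, ?_⟩
  intro c hc e he
  have ht : (0 : ℝ) ∈ Icc (0 : ℝ) 1 := ⟨le_rfl, zero_le_one⟩
  have h := im_bound h₁ h₂ hδ hc he ht (hM c hc 0 ht).1 hB (le_abs_self _) (abs_nonneg _)
  have e1 : vv R₁ D₁ R₂ D₂ c e = fun w => -((tz R₁ D₁ R₂ D₂ (D₁ ⊗ₖ R₂) c e 0 w).im / w) := by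
    funext w
    unfold vv
    ring
  rw [e1]
  exact h

/-- uniform bound for `ui` at fixed `c` -/
theorem ui_bound (h₁ : SPair R₁ D₁) (h₂ : SPair R₂ D₂) {c : ℝ} (hc : c ∈ Icc (-1 : ℝ) 1) :
    ∃ C : ℝ, 0 ≤ C ∧ ∀ e, 0 ≤ e → UB (fun t w => ui R₁ D₁ R₂ D₂ c e t w) 0 1 C := by
  obtain ⟨δ, b, hδ, hb, hM⟩ := Mt_bounds h₁ h₂
  have hB : (Dc D₁ R₂ D₂ c).IsHermitian := Dc_herm h₁ h₂ c
  refine ⟨Real.pi / 2 * Real.sqrt (Fintype.card (ι × κ) *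
    |(((Dc D₁ R₂ D₂ c)ᴴ * (Dc D₁ R₂ D₂ c)).trace).re|), by positivity, ?_⟩
  intro e he
  have e1 : ∀ t, ui R₁ D₁ R₂ D₂ c e t = fun w =>
      - -((tz R₁ D₁ R₂ D₂ (Dc D₁ R₂ D₂ c) c e t w).im / w) := by
    intro t
    funext w
    unfold ui
    ring
  constructor
  · exact (meas_ui R₁ D₁ R₂ D₂).comp (f := fun z : ℝ × ℝ => (c, e, z.1, z.2)) (by fun_prop)
  · intro t ht
    have h := im_bound h₁ h₂ hδ hc he ht (hM c hc t ht).1 hB (le_abs_self _) (abs_nonneg _)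
    rw [e1 t]
    exact h.1.neg
  · intro t ht
    have h := im_bound h₁ h₂ hδ hc he ht (hM c hc t ht).1 hB (le_abs_self _) (abs_nonneg _)
    rw [e1 t]
    simp only [abs_neg] at h ⊢
    refine h.2.trans ?_
    apply div_le_self (by positivity)
    have : 0 ≤ e * δ := by positivity
    linarith

end Pool.Agent.A1
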