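import Pool.Agent.Lib_helper50.A1.Prop1

/-!
# Project A1: Proposition 1, the theorem
-/

open scoped BigOperators ComplexOrder Kronecker MatrixOrder Topology
open MeasureTheory Set Matrix Filter

set_option linter.unusedSectionVars false
set_option linter.unusedVariables false

namespace Pool.Agent.A1

variable {ι κ : Type} [Fintype ι] [DecidableEq ι] [Fintype κ] [DecidableEq κ]
variable {R₁ D₁ : Matrix ι ι ℂ} {R₂ D₂ : Matrix κ κ ℂ}

/-- the left side -/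
theorem prop1_left (h₁ : SPair R₁ D₁) (h₂ : SPair R₂ D₂) {a b : ℝ} (ha : 0 < a) (hab : a ≤ b)
    (om : ℝ → ℝ) (com : ContinuousOn om (Icc a b)) (mom : Measurable om) :
    2 / Real.pi * (∫ w in Ioi (0 : ℝ), ∫ e in a..b, om e *
      (e * (∫ t in (0 : ℝ)..1, ui R₁ D₁ R₂ D₂ 1 e t w) -
        e * ∫ t in (0 : ℝ)..1, ui R₁ D₁ R₂ D₂ (-1) e t w)) =
    ∫ e in a..b, om e * (e * (∫ t in (0 : ℝ)..1, rC R₁ D₁ R₂ D₂ 1 e t) -
        e * ∫ t in (0 : ℝ)..1, rC R₁ D₁ R₂ D₂ (-1) e t) := by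
  obtain ⟨Ω, hΩ⟩ := isCompact_Icc.exists_bound_of_continuousOn com
  have hA : ∀ c ∈ Icc (-1 : ℝ) 1, ∃ C : ℝ, 0 ≤ C ∧
      (∀ e, 0 ≤ e → UB (fun t w => ui R₁ D₁ R₂ D₂ c e t w) 0 1 C) ∧
      UB (fun e w => ∫ t in (0 : ℝ)..1, ui R₁ D₁ R₂ D₂ c e t w) a b C := by
    intro c hc
    obtain ⟨C, hC0, hC⟩ := ui_bound h₁ h₂ hc
    refine ⟨C, hC0, hC, ?_⟩
    have h := UB.nest (g := fun e t w => ui R₁ D₁ R₂ D₂ c e t w) (a := a) (b := b) (c := 0)
      (d := 1) (C := C) zero_le_one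
      ((meas_ui R₁ D₁ R₂ D₂).comp (f := fun z : ℝ × ℝ × ℝ => (c, z.1, z.2.1, z.2.2)) (by fun_prop))
      (fun e he => hC e (ha.le.trans he.1))
    rw [sub_zero, mul_one] at h
    exact h
  obtain ⟨C1, hC1, u1, v1⟩ := hA 1 (by constructor <;> norm_num)
  obtain ⟨C2, hC2, u2, v2⟩ := hA (-1) (by constructor <;> norm_num)
  have hid : ∀ x ∈ Icc a b, |x| ≤ b := fun x hx => by
    rw [abs_of_nonneg (ha.le.trans hx.1)]; exact hx.2
  have hG := UB.mul ((UB.mul v1 measurable_id hid).sub (UB.mul v2 measurable_id hid)) mom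
    (fun x hx => hΩ x hx)
  have hswap := hG.swap hab
  simp only [id] at hswap
  rw [hswap, ← intervalIntegral.integral_const_mul]
  apply intervalIntegral.integral_congr
  intro e he
  rw [uIcc_of_le hab] at he
  have he0 : 0 ≤ e := ha.le.trans he.1
  simp only
  rw [integral_const_mul, integral_sub ((v1.int e he).const_mul e) ((v2.int e he).const_mul e),
    integral_const_mul, integral_const_mul, (u1 e he0).swap zero_le_one,
    (u2 e he0).swap zero_le_one]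
  unfold rC
  rw [intervalIntegral.integral_const_mul, intervalIntegral.integral_const_mul]
  ring

/-- **Proposition 1** -/
theorem prop1 (h₁ : SPair R₁ D₁) (h₂ : SPair R₂ D₂) {a b : ℝ} (ha : 0 < a) (hab : a ≤ b)
    (om om' : ℝ → ℝ) (hom : ∀ e, 0 < e → HasDerivAt om (om' e) e)
    (hom' : ContinuousOn om' (Ioi 0)) (mom : Measurable om) (mom' : Measurable om') :
    (∫ e in a..b, om e * (e * (∫ t in (0 : ℝ)..1, rC R₁ D₁ R₂ D₂ 1 e t) -
        e * ∫ t in (0 : ℝ)..1, rC R₁ D₁ R₂ D₂ (-1) e t)) =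
      ∫ c in (-1 : ℝ)..1,
        (-(om b * (b * ∫ t in (0 : ℝ)..1, pC R₁ D₁ R₂ D₂ c b t) -
          om a * (a * ∫ t in (0 : ℝ)..1, pC R₁ D₁ R₂ D₂ c a t)) +
        ∫ e in a..b, (om' e * (e * ∫ t in (0 : ℝ)..1, pC R₁ D₁ R₂ D₂ c e t) +
          om e * (2 * pC R₁ D₁ R₂ D₂ c e 1 - pC R₁ D₁ R₂ D₂ c e 0) +
          om e * (e * qC R₁ D₁ R₂ D₂ c e))) := by
  have hsub : Icc a b ⊆ Ioi 0 := fun x hx => lt_of_lt_of_le ha hx.1
  have com : ContinuousOn om (Icc a b) := fun e he =>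
    (hom e (hsub he)).continuousAt.continuousWithinAt
  have com' : ContinuousOn om' (Icc a b) := hom'.mono hsub
  obtain ⟨Ω, hΩ⟩ := isCompact_Icc.exists_bound_of_continuousOn com
  obtain ⟨Ω', hΩ'⟩ := isCompact_Icc.exists_bound_of_continuousOn com'
  obtain ⟨C, hC0, hC⟩ := ub_t h₁ h₂
  obtain ⟨C', δ, hδ, hC'0, hC'⟩ := vv_bound h₁ h₂
  have h11 : (-1 : ℝ) ≤ 1 := by norm_num
  have hb : 0 ≤ b := ha.le.trans hab
  have hid : ∀ x ∈ Icc a b, |x| ≤ b := fun x hx => by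
    rw [abs_of_nonneg (ha.le.trans hx.1)]; exact hx.2
  -- the pieces for fixed `c`
  have k1 : ∀ c ∈ Icc (-1 : ℝ) 1, UB (fun e w => uA R₁ D₁ R₂ D₂ c e w) a b C :=
    fun c hc => ub_eA h₁ h₂ hC hc ha
  have k2 : ∀ c ∈ Icc (-1 : ℝ) 1, ∀ t ∈ Icc (0 : ℝ) 1,
      UB (fun e w => uu R₁ D₁ R₂ D₂ c e t w) a b C := fun c hc t ht => ub_e1 h₁ h₂ hC hc ha ht
  have k3 : ∀ c ∈ Icc (-1 : ℝ) 1, UB (fun e w => vv R₁ D₁ R₂ D₂ c e w) a b C' := by
    intro c hc
    refine ⟨?_, fun e he => (hC' c hc e (ha.le.trans he.1)).1, fun e he => ?_⟩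
    · exact (meas_vv R₁ D₁ R₂ D₂).comp (f := fun z : ℝ × ℝ => (c, z.1, z.2)) (by fun_prop)
    · refine (hC' c hc e (ha.le.trans he.1)).2.trans (div_le_self hC'0 ?_)
      have : 0 ≤ e * δ := mul_nonneg (ha.le.trans he.1) hδ.le
      linarith
  have t0 : (0 : ℝ) ∈ Icc (0 : ℝ) 1 := ⟨le_rfl, zero_le_one⟩
  have t1 : (1 : ℝ) ∈ Icc (0 : ℝ) 1 := ⟨zero_le_one, le_rfl⟩
  set G : ℝ → ℝ → ℝ → ℝ := fun c e w => om' e * (e * uA R₁ D₁ R₂ D₂ c e w) +
      om e * (2 * uu R₁ D₁ R₂ D₂ c e 1 w - uu R₁ D₁ R₂ D₂ c e 0 w) +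
      om e * (e * vv R₁ D₁ R₂ D₂ c e w) with hGdef
  have kG : ∀ c ∈ Icc (-1 : ℝ) 1, UB (G c) a b
      (Ω' * (b * C) + Ω * (|2| * C + C) + Ω * (b * C')) := by
    intro c hc
    have g1 := UB.mul (UB.mul (k1 c hc) measurable_id hid) mom' (fun x hx => hΩ' x hx)
    have g2 := UB.mul ((UB.mul (k2 c hc 1 t1) (g := fun _ => (2 : ℝ)) (G := |2|) measurable_const
      (fun _ _ => le_rfl)).sub (k2 c hc 0 t0)) mom (fun x hx => hΩ x hx)
    have g3 := UB.mul (UB.mul (k3 c hc) measurable_id hid) mom (fun x hx => hΩ x hx)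
    exact (g1.add g2).add g3
  have mG : Measurable fun z : ℝ × ℝ × ℝ => G z.1 z.2.1 z.2.2 := by
    simp only [hGdef]
    have m1 : Measurable fun z : ℝ × ℝ × ℝ => uu R₁ D₁ R₂ D₂ z.1 z.2.1 1 z.2.2 :=
      (meas_uu R₁ D₁ R₂ D₂).comp (f := fun z : ℝ × ℝ × ℝ => (z.1, z.2.1, (1 : ℝ), z.2.2))
        (by fun_prop)
    have m0 : Measurable fun z : ℝ × ℝ × ℝ => uu R₁ D₁ R₂ D₂ z.1 z.2.1 0 z.2.2 :=
      (meas_uu R₁ D₁ R₂ D₂).comp (f := fun z : ℝ × ℝ × ℝ => (z.1, z.2.1, (0 : ℝ), z.2.2))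
        (by fun_prop)
    have me : Measurable fun z : ℝ × ℝ × ℝ => z.2.1 := by fun_prop
    exact (((mom'.comp me).mul (me.mul (meas_uA R₁ D₁ R₂ D₂))).add
      ((mom.comp me).mul ((measurable_const.mul m1).sub m0))).add
      ((mom.comp me).mul (me.mul (meas_vv R₁ D₁ R₂ D₂)))
  have kN := UB.nest (g := G) hab mG kG
  have kb : UB (fun c w => uA R₁ D₁ R₂ D₂ c b w) (-1) 1 C := ub_cA h₁ h₂ hC hb
  have ka : UB (fun c w => uA R₁ D₁ R₂ D₂ c a w) (-1) 1 C := ub_cA h₁ h₂ hC ha.le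
  have kbd := ((UB.mul (UB.mul kb (g := fun _ => b) (G := |b|) measurable_const
      (fun _ _ => le_rfl)) (g := fun _ => om b) (G := |om b|) measurable_const
      (fun _ _ => le_rfl)).sub (UB.mul (UB.mul ka (g := fun _ => a) (G := |a|) measurable_const
      (fun _ _ => le_rfl)) (g := fun _ => om a) (G := |om a|) measurable_const
      (fun _ _ => le_rfl))).neg
  have kT := kbd.add kN
  -- integrate `(P_w)`
  have hPw : ∫ w in Ioi (0 : ℝ), ∫ e in a..b, om e *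
      (e * (∫ t in (0 : ℝ)..1, ui R₁ D₁ R₂ D₂ 1 e t w) -
        e * ∫ t in (0 : ℝ)..1, ui R₁ D₁ R₂ D₂ (-1) e t w) =
      ∫ w in Ioi (0 : ℝ), ∫ c in (-1 : ℝ)..1,
        (-(om b * (b * uA R₁ D₁ R₂ D₂ c b w) - om a * (a * uA R₁ D₁ R₂ D₂ c a w)) +
          ∫ e in a..b, G c e w) := by
    apply setIntegral_congr_fun measurableSet_Ioi
    intro w hw
    exact Pw h₁ h₂ hw ha hab om om' hom hom'
  rw [← prop1_left h₁ h₂ ha hab om com mom, hPw, kT.swap h11,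
    ← intervalIntegral.integral_const_mul]
  apply intervalIntegral.integral_congr
  intro c hc
  rw [uIcc_of_le h11] at hc
  simp only
  rw [integral_add (kbd.int c hc) (kN.int c hc), mul_add]
  congr 1
  · rw [integral_neg, integral_sub (((kb.int c hc).const_mul b).const_mul (om b))
      (((ka.int c hc).const_mul a).const_mul (om a)), integral_const_mul, integral_const_mul,
      integral_const_mul, integral_const_mul]
    have eb : ∫ w in Ioi (0 : ℝ), uA R₁ D₁ R₂ D₂ c b w =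
        ∫ t in (0 : ℝ)..1, ∫ w in Ioi (0 : ℝ), uu R₁ D₁ R₂ D₂ c b t w :=
      (hC c hc b hb).swap zero_le_one
    have ea : ∫ w in Ioi (0 : ℝ), uA R₁ D₁ R₂ D₂ c a w =
        ∫ t in (0 : ℝ)..1, ∫ w in Ioi (0 : ℝ), uu R₁ D₁ R₂ D₂ c a t w :=
      (hC c hc a ha.le).swap zero_le_one
    rw [eb, ea]
    unfold pC
    rw [intervalIntegral.integral_const_mul, intervalIntegral.integral_const_mul]
    ring
  · rw [(kG c hc).swap hab, ← intervalIntegral.integral_const_mul]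
    apply intervalIntegral.integral_congr
    intro e he
    rw [uIcc_of_le hab] at he
    have he0 : 0 ≤ e := ha.le.trans he.1
    simp only [hGdef]
    have i1 := ((k1 c hc).int e he).const_mul e
    have i2 := ((k2 c hc 1 t1).int e he).const_mul 2
    have i3 := (k2 c hc 0 t0).int e he
    have i4 := ((k3 c hc).int e he).const_mul e
    have j1 : IntegrableOn (fun w => om' e * (e * uA R₁ D₁ R₂ D₂ c e w)) (Ioi 0) :=
      i1.const_mul (om' e)
    have j2 : IntegrableOn (fun w => om e * (2 * uu R₁ D₁ R₂ D₂ c e 1 w -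
        uu R₁ D₁ R₂ D₂ c e 0 w)) (Ioi 0) := (i2.sub i3).const_mul (om e)
    have j3 : IntegrableOn (fun w => om e * (e * vv R₁ D₁ R₂ D₂ c e w)) (Ioi 0) :=
      i4.const_mul (om e)
    have j12 : IntegrableOn (fun w => om' e * (e * uA R₁ D₁ R₂ D₂ c e w) +
        om e * (2 * uu R₁ D₁ R₂ D₂ c e 1 w - uu R₁ D₁ R₂ D₂ c e 0 w)) (Ioi 0) := j1.add j2
    rw [integral_add j12 j3, integral_add j1 j2,
      integral_const_mul, integral_const_mul, integral_const_mul, integral_sub i2 i3,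
      integral_const_mul, integral_const_mul, integral_const_mul]
    have eA : ∫ w in Ioi (0 : ℝ), uA R₁ D₁ R₂ D₂ c e w =
        ∫ t in (0 : ℝ)..1, ∫ w in Ioi (0 : ℝ), uu R₁ D₁ R₂ D₂ c e t w :=
      (hC c hc e he0).swap zero_le_one
    rw [eA]
    unfold pC qC
    rw [intervalIntegral.integral_const_mul]
    ring

end Pool.Agent.A1
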